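import Pool.Agent.Gru.Lift

set_option autoImplicit false

namespace Pool.Agent.Gru

/-- The omitted slot at `X(c,b)` when the base vertices `(i,β)`, `(j,β')` are deleted. -/
def OO (N i β j β' c b : ℕ) : Fin 3 :=
  if c < i then 1
  else if c = i then (if b = β then 0 else 1)
  else if c = i + 1 then (if b = β ∧ i ≠ 0 then 0 else 2)
  else if (j - i) % 2 = 0 ∧ c = i + 2 then (if b = β then 0 else 1)
  else if (j - i) % 2 = 0 ∧ c = i + 3 then (if b = β then 2 else 1)
  else if (j - i) % 2 = 0 ∧ c = i + 4 then (if b = β then 0 else 2)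
  else if c + 1 = j then (if b = β' ∨ j = N + 1 then 1 else 0)
  else if c = j then (if b = β' then 0 else 2)
  else if j < c then 2
  else 0

section
variable {N i β j β' : ℕ}

theorem OO_lt {c b : ℕ} (h : c < i) : OO N i β j β' c b = 1 := by
  unfold OO; rw [if_pos h]

theorem OO_i_eq : OO N i β j β' i β = 0 := by
  unfold OO; simp

theorem OO_i_ne {b : ℕ} (h : b ≠ β) : OO N i β j β' i b = 1 := by
  unfold OO; simp [h]

theorem OO_i1_eq (h0 : i ≠ 0) : OO N i β j β' (i + 1) β = 0 := by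
  unfold OO; simp [h0]

theorem OO_i1_ne {b : ℕ} (h : b ≠ β ∨ i = 0) : OO N i β j β' (i + 1) b = 2 := by
  unfold OO
  rw [if_neg (by omega), if_neg (by omega), if_pos rfl, if_neg (by omega)]

theorem OO_i2_eq (hK : (j - i) % 2 = 0) : OO N i β j β' (i + 2) β = 0 := by
  unfold OO; simp [hK]

theorem OO_i2_ne (hK : (j - i) % 2 = 0) {b : ℕ} (h : b ≠ β) : OO N i β j β' (i + 2) b = 1 := by
  unfold OO; simp [hK, h]

theorem OO_i3_eq (hK : (j - i) % 2 = 0) : OO N i β j β' (i + 3) β = 2 := by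
  unfold OO; simp [hK]

theorem OO_i3_ne (hK : (j - i) % 2 = 0) {b : ℕ} (h : b ≠ β) : OO N i β j β' (i + 3) b = 1 := by
  unfold OO; simp [hK, h]

theorem OO_i4_eq (hK : (j - i) % 2 = 0) : OO N i β j β' (i + 4) β = 0 := by
  unfold OO; simp [hK]

theorem OO_i4_ne (hK : (j - i) % 2 = 0) {b : ℕ} (h : b ≠ β) : OO N i β j β' (i + 4) b = 2 := by
  unfold OO; simp [hK, h]

theorem OO_j1_eq (hij : i + 6 ≤ j) {c b : ℕ} (hc : c + 1 = j) (h : b = β' ∨ j = N + 1) :
    OO N i β j β' c b = 1 := by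
  unfold OO
  rw [if_neg (by omega), if_neg (by omega), if_neg (by omega), if_neg (by omega),
    if_neg (by omega), if_neg (by omega), if_pos hc, if_pos h]

theorem OO_j1_ne (hij : i + 6 ≤ j) {c b : ℕ} (hc : c + 1 = j) (h : b ≠ β') (h' : j ≠ N + 1) :
    OO N i β j β' c b = 0 := by
  unfold OO
  rw [if_neg (by omega), if_neg (by omega), if_neg (by omega), if_neg (by omega),
    if_neg (by omega), if_neg (by omega), if_pos hc, if_neg (by omega)]

theorem OO_j_eq (hij : i + 6 ≤ j) : OO N i β j β' j β' = 0 := by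
  unfold OO
  rw [if_neg (by omega), if_neg (by omega), if_neg (by omega), if_neg (by omega),
    if_neg (by omega), if_neg (by omega), if_neg (by omega), if_pos rfl, if_pos rfl]

theorem OO_j_ne (hij : i + 6 ≤ j) {b : ℕ} (h : b ≠ β') : OO N i β j β' j b = 2 := by
  unfold OO
  rw [if_neg (by omega), if_neg (by omega), if_neg (by omega), if_neg (by omega),
    if_neg (by omega), if_neg (by omega), if_neg (by omega), if_pos rfl, if_neg h]

theorem OO_gt (hij : i + 6 ≤ j) {c b : ℕ} (h : j < c) : OO N i β j β' c b = 2 := by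
  unfold OO
  rw [if_neg (by omega), if_neg (by omega), if_neg (by omega), if_neg (by omega),
    if_neg (by omega), if_neg (by omega), if_neg (by omega), if_neg (by omega), if_pos h]

theorem OO_mid {c b : ℕ} (h : (i + 2 ≤ c ∧ (j - i) % 2 = 1) ∨ i + 5 ≤ c) (h2 : c + 2 ≤ j) :
    OO N i β j β' c b = 0 := by
  unfold OO
  rw [if_neg (by omega), if_neg (by omega), if_neg (by omega), if_neg (by omega),
    if_neg (by omega), if_neg (by omega), if_neg (by omega), if_neg (by omega),
    if_neg (by omega)]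

/-- Connectivity of the base cycle. -/
theorem conn_core (hij : i + 6 ≤ j) (hj : j ≤ N + 1) (hβ : β ≤ 1) (hβ' : β' ≤ 1)
    (w : ℕ → ℕ → Prop) (hzL : w 0 0 ↔ w 0 1) (hzR : w (N + 1) 0 ↔ w (N + 1) 1)
    (e0 : ∀ c b, 1 ≤ c → c ≤ N → b ≤ 1 → OO N i β j β' c b = 0 → 
      (w (c + 1) b ↔ w (c - 1) (1 - b)))
    (e1 : ∀ c b, 1 ≤ c → c ≤ N → b ≤ 1 → OO N i β j β' c b = 1 → (w c b ↔ w (c - 1) (1 - b)))
    (e2 : ∀ c b, 1 ≤ c → c ≤ N → b ≤ 1 → OO N i β j β' c b = 2 → (w c b ↔ w (c + 1) b)) :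
    ∀ c b, c ≤ N + 1 → b ≤ 1 → ¬ (c = i ∧ (b = β ∨ i = 0)) → 
      ¬ (c = j ∧ (b = β' ∨ j = N + 1)) → (w c b ↔ w (j - 1) 0) := by
  have b01 : ∀ b, b ≤ 1 → b = 0 ∨ b = 1 := by omega
  -- left part
  have hleft : ∀ c, c < i → ∀ b, b ≤ 1 → (w c b ↔ w 0 0) := by
    intro c
    induction c with
    | zero =>
      intro _ b hb
      rcases b01 b hb with rfl | rfl
      · exact Iff.rfl
      · exact hzL.symm
    | succ c ih =>
      intro hc b hb
      have := e1 (c + 1) b (by omega) (by omega) hb (OO_lt hc)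
      rw [this]
      exact ih (by omega) (1 - b) (by omega)
  -- right part
  have hright : ∀ d c, c + d = N + 1 → j < c → ∀ b, b ≤ 1 → (w c b ↔ w (N + 1) 0) := by
    intro d
    induction d with
    | zero =>
      intro c hc hjc b hb
      have : c = N + 1 := by omega
      subst this
      rcases b01 b hb with rfl | rfl
      · exact Iff.rfl
      · exact hzR.symm
    | succ d ih =>
      intro c hc hjc b hb
      have := e2 c b (by omega) (by omega) hb (OO_gt hij hjc)
      rw [this]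
      exact ih (c + 1) (by omega) (by omega) b hb
  -- the middle equation
  have hmid : ∀ c b, ((i + 2 ≤ c ∧ (j - i) % 2 = 1) ∨ i + 5 ≤ c) → c + 2 ≤ j → b ≤ 1 →
      (w (c + 1) b ↔ w (c - 1) (1 - b)) := by
    intro c b h1 h2 hb
    exact e0 c b (by omega) (by omega) hb (OO_mid h1 h2)
  -- left gadget
  have hnb : 1 - β ≠ β := by omega
  have hnb' : 1 - β' ≠ β' := by omega
  have hbb : 1 - (1 - β) = β := by omega
  have hbb' : 1 - (1 - β') = β' := by omega
  have gA : w (i + 1) β ↔ w (i + 2) β := by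
    by_cases hi : i = 0
    · exact e2 (i + 1) β (by omega) (by omega) hβ (OO_i1_ne (Or.inr hi))
    · have h1 := e0 (i + 1) β (by omega) (by omega) hβ (OO_i1_eq hi)
      have h2 := e1 i (1 - β) (by omega) (by omega) (by omega) (OO_i_ne hnb)
      have h3 := e0 i β (by omega) (by omega) hβ OO_i_eq
      have h4 := hleft (i - 1) (by omega) β hβ
      have h5 := hleft (i - 1) (by omega) (1 - β) (by omega)
      rw [Nat.add_sub_cancel] at h1
      rw [hbb] at h2
      exact h3.trans (h5.trans (h4.symm.trans (h2.symm.trans h1.symm)))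
  have gB : w (i + 1) (1 - β) ↔ w (i + 2) (1 - β) :=
    e2 (i + 1) (1 - β) (by omega) (by omega) (by omega) (OO_i1_ne (Or.inl hnb))
  -- K gadget
  have gK : (j - i) % 2 = 0 → (w (i + 4) β ↔ w (i + 5) β) ∧ 
      (w (i + 4) (1 - β) ↔ w (i + 5) (1 - β)) ∧ 
      (w (i + 1) β ↔ w (i + 4) β) ∧ (w (i + 1) (1 - β) ↔ w (i + 4) β) ∧ 
      (w (i + 2) β ↔ w (i + 4) β) ∧ (w (i + 2) (1 - β) ↔ w (i + 4) β) ∧
      (w (i + 3) β ↔ w (i + 4) β) ∧ (w (i + 3) (1 - β) ↔ w (i + 4) β) := by
    intro hK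
    have k1 := e0 (i + 2) β (by omega) (by omega) hβ (OO_i2_eq hK)
    have k2 := e1 (i + 2) (1 - β) (by omega) (by omega) (by omega) (OO_i2_ne hK hnb)
    have k3 := e2 (i + 3) β (by omega) (by omega) hβ (OO_i3_eq hK)
    have k4 := e1 (i + 3) (1 - β) (by omega) (by omega) (by omega) (OO_i3_ne hK hnb)
    have k5 := e0 (i + 4) β (by omega) (by omega) hβ (OO_i4_eq hK)
    have k6 := e2 (i + 4) (1 - β) (by omega) (by omega) (by omega) (OO_i4_ne hK hnb)
    simp only [hbb, show i + 2 - 1 = i + 1 by omega,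
      show i + 3 - 1 = i + 2 by omega, show i + 4 - 1 = i + 3 by omega,
      show i + 2 + 1 = i + 3 by omega, show i + 3 + 1 = i + 4 by omega,
      show i + 4 + 1 = i + 5 by omega] at k1 k2 k3 k4 k5 k6
    have ka : w (i + 1) (1 - β) ↔ w (i + 4) β := k1.symm.trans k3
    have kb : w (i + 2) (1 - β) ↔ w (i + 4) β := gB.symm.trans ka
    have kc : w (i + 1) β ↔ w (i + 4) β := k2.symm.trans kb
    have kd : w (i + 2) β ↔ w (i + 4) β := gA.symm.trans kc
    have ke : w (i + 3) (1 - β) ↔ w (i + 4) β := k4.trans kd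
    exact ⟨(k5.trans ke).symm, k6, kc, ka, kd, kb, k3, ke⟩
  -- start column of the pairs
  obtain ⟨c0, hc0, hc0j, hpar, hbase, hlow⟩ : ∃ c0, (i + 1 ≤ c0 ∧ 
      ((i + 1 ≤ c0 ∧ (j - i) % 2 = 1) ∨ i + 4 ≤ c0)) ∧ c0 + 2 ≤ j ∧ (j - c0) % 2 = 0 ∧ 
      (∀ b, b ≤ 1 → (w c0 b ↔ w (c0 + 1) b)) ∧ 
      (∀ c b, i < c → c < c0 → b ≤ 1 → ∃ b', b' ≤ 1 ∧ (w c b ↔ w c0 b')) := by
    by_cases hK : (j - i) % 2 = 0
    · obtain ⟨g1, g2, g3, g4, g5, g6, g7, g8⟩ := gK hK
      refine ⟨i + 4, ⟨by omega, by omega⟩, by omega, by omega, ?_, ?_⟩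
      · intro b hb
        rcases (by omega : b = β ∨ b = 1 - β) with rfl | rfl
        · exact g1
        · exact g2
      · intro c b h1 h2 hb
        refine ⟨β, hβ, ?_⟩
        rcases (by omega : c = i + 1 ∨ c = i + 2 ∨ c = i + 3) with rfl | rfl | rfl <;>
          rcases (by omega : b = β ∨ b = 1 - β) with rfl | rfl <;> assumption
    · refine ⟨i + 1, ⟨by omega, by omega⟩, by omega, by omega, ?_, ?_⟩
      · intro b hb
        rcases (by omega : b = β ∨ b = 1 - β) with rfl | rfl
        · exact gA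
        · exact gB
      · intro c b h1 h2 hb
        omega
  have hT : ∀ n, c0 + 2 * n + 2 ≤ j → ∀ b, b ≤ 1 → (w (c0 + 2 * n) b ↔ w (c0 + 2 * n + 1) b) := by
    intro n
    induction n with
    | zero => intro _ b hb; exact hbase b hb
    | succ n ih =>
      intro hn b hb
      have h1 := hmid (c0 + 2 * n + 1) b (by omega) (by omega) hb
      have h2 := hmid (c0 + 2 * n + 2) b (by omega) (by omega) hb
      have h3 := ih (by omega) (1 - b) (by omega)
      rw [show c0 + 2 * (n + 1) = c0 + 2 * n + 1 + 1 by ring, h1, Nat.add_sub_cancel, h3,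
        show c0 + 2 * n + 1 + 1 + 1 = c0 + 2 * n + 2 + 1 by ring, h2,
        show c0 + 2 * n + 2 - 1 = c0 + 2 * n + 1 by omega]
  -- final columns
  have hfin : ∀ b, b ≤ 1 → (w (j - 2) b ↔ w (j - 1) b) := by
    intro b hb
    have := hT ((j - 2 - c0) / 2) (by omega) b hb
    rw [show c0 + 2 * ((j - 2 - c0) / 2) = j - 2 by omega, show j - 2 + 1 = j - 1 by omega] at this
    exact this
  have hR1 : w (j - 1) β' ↔ w (j - 2) (1 - β') := by
    have := e1 (j - 1) β' (by omega) (by omega) hβ' (OO_j1_eq hij (by omega) (Or.inl rfl))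
    rwa [show j - 1 - 1 = j - 2 by omega] at this
  have hR : ∀ b, b ≤ 1 → (w (j - 1) b ↔ w (j - 1) 0) ∧ (w (j - 2) b ↔ w (j - 1) 0) := by
    intro b hb
    have f0 := hfin 0 (by omega)
    have f1 := hfin 1 (by omega)
    have f01 : w (j - 1) 1 ↔ w (j - 1) 0 := by
      rcases b01 β' hβ' with h | h
      · rw [h] at hR1
        exact (hR1.trans f1).symm
      · rw [h] at hR1
        exact hR1.trans f0
    rcases b01 b hb with h | h
    · rw [h]; exact ⟨Iff.rfl, f0⟩
    · rw [h]; exact ⟨f01, f1.trans f01⟩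
  -- all middle columns
  have hM : ∀ d c, c + d = j - 1 → c0 ≤ c → ∀ b, b ≤ 1 → (w c b ↔ w (j - 1) 0) := by
    intro d
    induction d using Nat.strong_induction_on with
    | _ d ih =>
      intro c hc hcc b hb
      rcases (by omega : d = 0 ∨ d = 1 ∨ 2 ≤ d) with rfl | rfl | hd
      · have : c = j - 1 := by omega
        subst this
        exact (hR b hb).1
      · have : c = j - 2 := by omega
        subst this
        exact (hR b hb).2
      · have h1 := hmid (c + 1) (1 - b) (by omega) (by omega) (by omega)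
        have h2 := ih (d - 2) (by omega) (c + 2) (by omega) (by omega) (1 - b) (by omega)
        rw [show c + 1 + 1 = c + 2 by ring, Nat.add_sub_cancel, 
          show 1 - (1 - b) = b by omega] at h1
        exact h1.symm.trans h2
  have hM' : ∀ c, i < c → c < j → ∀ b, b ≤ 1 → (w c b ↔ w (j - 1) 0) := by
    intro c h1 h2 b hb
    by_cases hc : c0 ≤ c
    · exact hM (j - 1 - c) c (by omega) hc b hb
    · obtain ⟨b', hb', h3⟩ := hlow c b h1 (by omega) hb
      exact h3.trans (hM (j - 1 - c0) c0 (by omega) le_rfl b' hb')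
  -- conclusion
  intro c b hc hb hci hcj
  rcases lt_trichotomy c i with h | h | h
  · -- left
    have h1 := e0 i β (by omega) (by omega) hβ OO_i_eq
    have h5 := hleft (i - 1) (by omega) (1 - β) (by omega)
    have h6 := hM' (i + 1) (by omega) (by omega) β hβ
    exact (hleft c h b hb).trans (h5.symm.trans (h1.symm.trans h6))
  · subst h
    have hc0' : c ≠ 0 := fun h => hci ⟨rfl, Or.inr h⟩
    have hb' : b = 1 - β := by
      have : b ≠ β := fun h => hci ⟨rfl, Or.inl h⟩
      omega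
    subst hb'
    have h1 := e0 (c + 1) β (by omega) (by omega) hβ (OO_i1_eq hc0')
    rw [Nat.add_sub_cancel] at h1
    exact h1.symm.trans (hM' (c + 2) (by omega) (by omega) β hβ)
  · rcases lt_trichotomy c j with h' | h' | h'
    · exact hM' c h h' b hb
    · subst h'
      have hcN : c ≠ N + 1 := fun h => hcj ⟨rfl, Or.inr h⟩
      have hb' : b = 1 - β' := by
        have : b ≠ β' := fun h => hcj ⟨rfl, Or.inl h⟩
        omega
      subst hb'
      have h1 := e0 (c - 1) (1 - β') (by omega) (by omega) (by omega)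
        (OO_j1_ne hij (by omega) hnb' hcN)
      rw [show c - 1 + 1 = c by omega, show c - 1 - 1 = c - 2 by omega, hbb'] at h1
      exact h1.trans (hR β' hβ').2
    · have h1 := e0 j β' (by omega) (by omega) hβ' (OO_j_eq hij)
      have h2 := hright (N + 1 - c) c (by omega) h' b hb
      have h3 := hright (N + 1 - (j + 1)) (j + 1) (by omega) (by omega) β' hβ'
      exact h2.trans (h3.symm.trans (h1.trans (hR (1 - β') (by omega)).1))

end

end Pool.Agent.Gru

namespace Pool.Agent.Gru

section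
variable {N i β j β' : ℕ}

theorem OO_omit (hij : i + 6 ≤ j) (hβ : β ≤ 1) (hβ' : β' ≤ 1) (c b : ℕ)
    (hc : 2 ≤ c) (hcN : c + 1 ≤ N) (hb : b ≤ 1) :
    OO N i β j β' c b = 0 ∨ OO N i β j β' (c - 1) b = 1 ∨ OO N i β j β' (c + 1) (1 - b) = 2 := by
  have hnb : 1 - β ≠ β := by omega
  rcases lt_trichotomy c i with h | h | h
  · right; left; exact OO_lt (by omega)
  · right; left; exact OO_lt (by omega)
  rcases (by omega : c = i + 1 ∨ c = i + 2 ∨ c = i + 3 ∨ c = i + 4 ∨ i + 5 ≤ c) with
    h' | h' | h' | h' | h'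
  · by_cases hbβ : b = β
    · left; rw [h', hbβ]; exact OO_i1_eq (by omega)
    · right; left; rw [h', Nat.add_sub_cancel]; exact OO_i_ne hbβ
  · by_cases hK : (j - i) % 2 = 0
    · by_cases hbβ : b = β
      · left; rw [h', hbβ]; exact OO_i2_eq hK
      · right; right
        rw [h', show 1 - b = β by omega]
        exact OO_i3_eq hK
    · left; exact OO_mid (Or.inl ⟨by omega, by omega⟩) (by omega)
  · by_cases hK : (j - i) % 2 = 0
    · by_cases hbβ : b = β
      · right; right
        rw [h', hbβ]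
        exact OO_i4_ne hK hnb
      · right; left
        rw [h', show i + 3 - 1 = i + 2 by omega]
        exact OO_i2_ne hK hbβ
    · left; exact OO_mid (Or.inl ⟨by omega, by omega⟩) (by omega)
  · by_cases hK : (j - i) % 2 = 0
    · by_cases hbβ : b = β
      · left; rw [h', hbβ]; exact OO_i4_eq hK
      · right; left
        rw [h', show i + 4 - 1 = i + 3 by omega]
        exact OO_i3_ne hK hbβ
    · left; exact OO_mid (Or.inl ⟨by omega, by omega⟩) (by omega)
  · rcases (by omega : c + 2 ≤ j ∨ c + 1 = j ∨ c = j ∨ j < c) with h3 | h3 | h3 | h3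
    · left; exact OO_mid (Or.inr h') h3
    · by_cases hbβ : b = β'
      · right; right
        rw [h3]; exact OO_j_ne hij (by omega)
      · left; exact OO_j1_ne hij h3 hbβ (by omega)
    · right; right
      exact OO_gt hij (by omega)
    · right; right
      exact OO_gt hij (by omega)

end

/-- The honeycomb tube: neighbours of `x`. -/
def nb (N : ℕ) (x : Fin (2 * N)) (k : Fin 3) : Fin (2 * N + 2) :=
  if k = 0 then ⟨x.val + 1, by omega⟩
  else if k = 1 then ⟨min (x.val + 3) (2 * N + 1), by omega⟩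
  else ⟨x.val - 2 * (x.val % 2), by omega⟩

theorem nb0 (N : ℕ) (x : Fin (2 * N)) : (nb N x 0).val = x.val + 1 := rfl
theorem nb1 (N : ℕ) (x : Fin (2 * N)) : (nb N x 1).val = min (x.val + 3) (2 * N + 1) := rfl
theorem nb2 (N : ℕ) (x : Fin (2 * N)) : (nb N x 2).val = x.val - 2 * (x.val % 2) := rfl

theorem nb_inj (N : ℕ) (x : Fin (2 * N)) : Function.Injective (nb N x) := by
  intro k k' h
  have h' := congrArg Fin.val h
  have hx := x.isLt
  have key : ∀ k : Fin 3, k = 0 ∨ k = 1 ∨ k = 2 := by decide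
  rcases key k with rfl | rfl | rfl <;> rcases key k' with rfl | rfl | rfl <;>
    first
      | rfl
      | (exfalso; simp only [nb0, nb1, nb2] at h'; omega)

/-- The omitted slot. -/
def oB (N p q : ℕ) (x : Fin (2 * N)) : Fin 3 :=
  OO N ((p + 1) / 2) ((p + 1) % 2) ((q + 1) / 2) ((q + 1) % 2) (x.val / 2 + 1) (x.val % 2)

theorem base_dead (N : ℕ) (p q : Fin (2 * N + 2))
    (hpq : (p.val + 1) / 2 + 6 ≤ (q.val + 1) / 2) (x : Fin (2 * N)) (k : Fin 3)
    (h : nb N x k = p ∨ nb N x k = q) : k = oB N p.val q.val x := by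
  have key : ∀ k : Fin 3, k = 0 ∨ k = 1 ∨ k = 2 := by decide
  have hx := x.isLt
  have hp := p.isLt
  have hq := q.isLt
  rcases h with h | h <;> have h' := congrArg Fin.val h <;> rcases key k with rfl | rfl | rfl <;>
    simp only [nb0, nb1, nb2] at h'
  · unfold oB
    rw [show x.val / 2 + 1 = (p.val + 1) / 2 by omega, show x.val % 2 = (p.val + 1) % 2 by omega]
    exact OO_i_eq.symm
  · unfold oB
    exact (OO_lt (by omega)).symm
  · unfold oB
    rw [show x.val / 2 + 1 = (p.val + 1) / 2 + 1 by omega]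
    exact (OO_i1_ne (by omega)).symm
  · unfold oB
    rw [show x.val / 2 + 1 = (q.val + 1) / 2 by omega, show x.val % 2 = (q.val + 1) % 2 by omega]
    exact (OO_j_eq hpq).symm
  · unfold oB
    exact (OO_j1_eq hpq (by omega) (by omega)).symm
  · unfold oB
    exact (OO_gt hpq (by omega)).symm

/-- `S(c,b)`. -/
def sv (N c b : ℕ) : Fin (2 * N + 2) := ⟨min (2 * c + b - 1) (2 * N + 1), by omega⟩

theorem base_conn (N : ℕ) (p q : Fin (2 * N + 2))
    (hpq : (p.val + 1) / 2 + 6 ≤ (q.val + 1) / 2) (w : Fin (2 * N + 2) → Prop)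
    (hw : ∀ x k k', k ≠ oB N p.val q.val x → k' ≠ oB N p.val q.val x →
      (w (nb N x k) ↔ w (nb N x k'))) :
    ∀ s s', s ≠ p → s ≠ q → s' ≠ p → s' ≠ q → (w s ↔ w s') := by
  have hp := p.isLt
  have hq := q.isLt
  have hx : ∀ c b, 1 ≤ c → c ≤ N → b ≤ 1 → ∃ x : Fin (2 * N), nb N x 0 = sv N c b ∧
      nb N x 1 = sv N (c + 1) b ∧ nb N x 2 = sv N (c - 1) (1 - b) ∧
      oB N p.val q.val x = 
        OO N ((p.val + 1) / 2) ((p.val + 1) % 2) ((q.val + 1) / 2) ((q.val + 1) % 2) c b := by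
    intro c b h1 h2 h3
    refine ⟨⟨2 * c + b - 2, by omega⟩, ?_, ?_, ?_, ?_⟩
    · apply Fin.ext
      rw [nb0]
      simp only [sv]
      omega
    · apply Fin.ext
      rw [nb1]
      simp only [sv]
      omega
    · apply Fin.ext
      rw [nb2]
      simp only [sv]
      omega
    · unfold oB
      simp only
      rw [show (2 * c + b - 2) / 2 + 1 = c by omega, show (2 * c + b - 2) % 2 = b by omega]
  have main := conn_core (N := N) (i := (p.val + 1) / 2) (β := (p.val + 1) % 2)
    (j := (q.val + 1) / 2) (β' := (q.val + 1) % 2) hpq (by omega) (by omega) (by omega)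
    (fun c b => w (sv N c b)) (by
      have : sv N 0 0 = sv N 0 1 := rfl
      rw [this])
    (by
      have : sv N (N + 1) 0 = sv N (N + 1) 1 := by
        apply Fin.ext
        simp only [sv]
        omega
      rw [this])
    (by
      intro c b h1 h2 h3 h4
      obtain ⟨x, x0, x1, x2, x3⟩ := hx c b h1 h2 h3
      show w (sv N (c + 1) b) ↔ w (sv N (c - 1) (1 - b))
      rw [← x1, ← x2]
      rw [h4] at x3
      apply hw <;> rw [x3] <;> decide)
    (by
      intro c b h1 h2 h3 h4
      obtain ⟨x, x0, x1, x2, x3⟩ := hx c b h1 h2 h3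
      show w (sv N c b) ↔ w (sv N (c - 1) (1 - b))
      rw [← x0, ← x2]
      rw [h4] at x3
      apply hw <;> rw [x3] <;> decide)
    (by
      intro c b h1 h2 h3 h4
      obtain ⟨x, x0, x1, x2, x3⟩ := hx c b h1 h2 h3
      show w (sv N c b) ↔ w (sv N (c + 1) b)
      rw [← x0, ← x1]
      rw [h4] at x3
      apply hw <;> rw [x3] <;> decide)
  have hs : ∀ s : Fin (2 * N + 2), s ≠ p → s ≠ q →
      (w s ↔ w (sv N ((q.val + 1) / 2 - 1) 0)) := by
    intro s h1 h2
    have h1' : s.val ≠ p.val := fun h => h1 (Fin.ext h)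
    have h2' : s.val ≠ q.val := fun h => h2 (Fin.ext h)
    have hsl := s.isLt
    have h3 : s = sv N ((s.val + 1) / 2) ((s.val + 1) % 2) := by
      apply Fin.ext
      simp only [sv]
      omega
    have := main ((s.val + 1) / 2) ((s.val + 1) % 2) (by omega) (by omega) (by omega) (by omega)
    rw [← h3] at this
    exact this
  intro s s' h1 h2 h3 h4
  exact (hs s h1 h2).trans (hs s' h3 h4).symm

/-- Used incidences at `s`. -/
theorem base_le_two (N : ℕ) (p q : Fin (2 * N + 2))
    (hpq : (p.val + 1) / 2 + 6 ≤ (q.val + 1) / 2) (s : Fin (2 * N + 2)) (hsp : s ≠ p)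
    (hsq : s ≠ q) :
    (Finset.univ.filter (fun i : Fin (2 * N) × Fin 3 => 
      i.2 ≠ oB N p.val q.val i.1 ∧ nb N i.1 i.2 = s)).card ≤ 2 := by
  by_contra hcon
  push Not at hcon
  rw [Finset.two_lt_card] at hcon
  obtain ⟨⟨x1, k1⟩, h1, ⟨x2, k2⟩, h2, ⟨x3, k3⟩, h3, h12, h13, h23⟩ := hcon
  simp only [Finset.mem_filter, Finset.mem_univ, true_and, ne_eq, Prod.mk.injEq] at h1 h2 h3 h12 h13 h23
  have hp := p.isLt
  have hq := q.isLt
  have hsl := s.isLt
  have hsp' : s.val ≠ p.val := fun h => hsp (Fin.ext h)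
  have hsq' : s.val ≠ q.val := fun h => hsq (Fin.ext h)
  have hx1 := x1.isLt
  have hx2 := x2.isLt
  have hx3 := x3.isLt
  have key : ∀ k : Fin 3, k = 0 ∨ k = 1 ∨ k = 2 := by decide
  -- omitted facts
  have homit : ∀ (y0 y1 y2 : Fin (2 * N)), nb N y0 0 = s → nb N y1 1 = s → nb N y2 2 = s →
      ¬ (0 = oB N p.val q.val y0) → ¬ (1 = oB N p.val q.val y1) → ¬ (2 = oB N p.val q.val y2) →
      False := by
    intro y0 y1 y2 g0 g1 g2 u0 u1 u2
    have g0' := congrArg Fin.val g0
    have g1' := congrArg Fin.val g1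
    have g2' := congrArg Fin.val g2
    rw [nb0] at g0'
    rw [nb1] at g1'
    rw [nb2] at g2'
    have hy0 := y0.isLt
    have hy1 := y1.isLt
    have hy2 := y2.isLt
    have := OO_omit (N := N) (i := (p.val + 1) / 2) (β := (p.val + 1) % 2)
      (j := (q.val + 1) / 2) (β' := (q.val + 1) % 2) hpq (by omega) (by omega)
      ((s.val + 1) / 2) ((s.val + 1) % 2) (by omega) (by omega) (by omega)
    rcases this with h | h | h
    · apply u0
      unfold oB
      rw [show y0.val / 2 + 1 = (s.val + 1) / 2 by omega,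
        show y0.val % 2 = (s.val + 1) % 2 by omega, h]
    · apply u1
      unfold oB
      rw [show y1.val / 2 + 1 = (s.val + 1) / 2 - 1 by omega,
        show y1.val % 2 = (s.val + 1) % 2 by omega, h]
    · apply u2
      unfold oB
      rw [show y2.val / 2 + 1 = (s.val + 1) / 2 + 1 by omega,
        show y2.val % 2 = 1 - (s.val + 1) % 2 by omega, h]
  obtain ⟨u1, n1⟩ := h1
  obtain ⟨u2, n2⟩ := h2
  obtain ⟨u3, n3⟩ := h3
  by_cases hs0 : s.val = 0
  · have hz : ∀ (x : Fin (2 * N)) (k : Fin 3), nb N x k = s → k = 2 ∧ x.val ≤ 1 := by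
      intro x k hx
      have hx' := congrArg Fin.val hx
      have hxl := x.isLt
      rcases key k with rfl | rfl | rfl
      · rw [nb0] at hx'; omega
      · rw [nb1] at hx'; omega
      · rw [nb2] at hx'
        exact ⟨rfl, by omega⟩
    obtain ⟨a1, b1⟩ := hz _ _ n1
    obtain ⟨a2, b2⟩ := hz _ _ n2
    obtain ⟨a3, b3⟩ := hz _ _ n3
    have d12 : x1.val ≠ x2.val := fun h => h12 ⟨Fin.ext h, a1.trans a2.symm⟩
    have d13 : x1.val ≠ x3.val := fun h => h13 ⟨Fin.ext h, a1.trans a3.symm⟩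
    have d23 : x2.val ≠ x3.val := fun h => h23 ⟨Fin.ext h, a2.trans a3.symm⟩
    omega
  by_cases hsM : s.val = 2 * N + 1
  · have hz : ∀ (x : Fin (2 * N)) (k : Fin 3), nb N x k = s → k = 1 ∧ 2 * N ≤ x.val + 2 := by
      intro x k hx
      have hx' := congrArg Fin.val hx
      have hxl := x.isLt
      rcases key k with rfl | rfl | rfl
      · rw [nb0] at hx'; omega
      · rw [nb1] at hx'
        exact ⟨rfl, by omega⟩
      · rw [nb2] at hx'; omega
    obtain ⟨a1, b1⟩ := hz _ _ n1
    obtain ⟨a2, b2⟩ := hz _ _ n2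
    obtain ⟨a3, b3⟩ := hz _ _ n3
    have d12 : x1.val ≠ x2.val := fun h => h12 ⟨Fin.ext h, a1.trans a2.symm⟩
    have d13 : x1.val ≠ x3.val := fun h => h13 ⟨Fin.ext h, a1.trans a3.symm⟩
    have d23 : x2.val ≠ x3.val := fun h => h23 ⟨Fin.ext h, a2.trans a3.symm⟩
    omega
  have hk : ∀ (x x' : Fin (2 * N)) (k : Fin 3), nb N x k = s → nb N x' k = s → x = x' := by
    intro x x' k hx hx'
    have g := congrArg Fin.val hx
    have g' := congrArg Fin.val hx'
    have hxl := x.isLt
    have hxl' := x'.isLt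
    apply Fin.ext
    rcases key k with rfl | rfl | rfl
    · rw [nb0] at g g'; omega
    · rw [nb1] at g g'; omega
    · rw [nb2] at g g'; omega
  have k12 : k1 ≠ k2 := by
    rintro rfl
    exact h12 ⟨hk _ _ _ n1 n2, rfl⟩
  have k13 : k1 ≠ k3 := by
    rintro rfl
    exact h13 ⟨hk _ _ _ n1 n3, rfl⟩
  have k23 : k2 ≠ k3 := by
    rintro rfl
    exact h23 ⟨hk _ _ _ n2 n3, rfl⟩
  have hall : ∀ k1 k2 k3 : Fin 3, k1 ≠ k2 → k1 ≠ k3 → k2 ≠ k3 →
      ∀ j, j = k1 ∨ j = k2 ∨ j = k3 := by decide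
  have hex : ∀ j : Fin 3, ∃ y, nb N y j = s ∧ ¬ (j = oB N p.val q.val y) := by
    intro j
    rcases hall k1 k2 k3 k12 k13 k23 j with rfl | rfl | rfl
    · exact ⟨x1, n1, u1⟩
    · exact ⟨x2, n2, u2⟩
    · exact ⟨x3, n3, u3⟩
  obtain ⟨y0, g0, v0⟩ := hex 0
  obtain ⟨y1, g1, v1⟩ := hex 1
  obtain ⟨y2, g2, v2⟩ := hex 2
  exact homit y0 y1 y2 g0 g1 g2 v0 v1 v2

theorem base_deg (N : ℕ) (p q : Fin (2 * N + 2))
    (hpq : (p.val + 1) / 2 + 6 ≤ (q.val + 1) / 2) (s : Fin (2 * N + 2)) (hsp : s ≠ p)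
    (hsq : s ≠ q) :
    {i : Fin (2 * N) × Fin 3 | i.2 ≠ oB N p.val q.val i.1 ∧ nb N i.1 i.2 = s}.ncard = 2 := by
  classical
  let U : Finset (Fin (2 * N) × Fin 3) := Finset.univ.filter (fun i => i.2 ≠ oB N p.val q.val i.1)
  have hU : U.card = 2 * (2 * N) := by
    have h1 : U.card = ∑ x : Fin (2 * N), (U.filter (fun i => i.1 = x)).card :=
      Finset.card_eq_sum_card_fiberwise (fun i _ => Finset.mem_univ _)
    have h2 : ∀ x ∈ (Finset.univ : Finset (Fin (2 * N))),
        (U.filter (fun i => i.1 = x)).card = 2 := by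
      intro x _
      have h3 : U.filter (fun i => i.1 = x) = 
          (Finset.univ.erase (oB N p.val q.val x)).image (fun k => (x, k)) := by
        ext ⟨y, k⟩
        simp only [U, Finset.mem_filter, Finset.mem_univ, true_and, Finset.mem_image,
          Finset.mem_erase, and_true, Prod.mk.injEq, ne_eq]
        constructor
        · rintro ⟨h1, rfl⟩
          exact ⟨k, h1, rfl, rfl⟩
        · rintro ⟨k', h1, rfl, rfl⟩
          exact ⟨h1, rfl⟩
      rw [h3, Finset.card_image_of_injective _ (fun a b hab => (Prod.mk.inj hab).2),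
        Finset.card_erase_of_mem (Finset.mem_univ _)]
      rfl
    rw [h1, Finset.sum_congr rfl h2, Finset.sum_const, Finset.card_univ, Fintype.card_fin,
      smul_eq_mul]
    ring
  have hfib : U.card = ∑ s : Fin (2 * N + 2), (U.filter (fun i => nb N i.1 i.2 = s)).card :=
    Finset.card_eq_sum_card_fiberwise (fun i _ => Finset.mem_univ _)
  have hle : ∀ t ∈ (Finset.univ : Finset (Fin (2 * N + 2))),
      (U.filter (fun i => nb N i.1 i.2 = t)).card ≤ (if t = p ∨ t = q then 0 else 2) := by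
    intro t _
    by_cases ht : t = p ∨ t = q
    · rw [if_pos ht, Nat.le_zero, Finset.card_eq_zero, Finset.filter_eq_empty_iff]
      intro i hi
      simp only [U, Finset.mem_filter, Finset.mem_univ, true_and] at hi
      intro h
      exact hi (base_dead N p q hpq i.1 i.2 (by rw [h]; exact ht))
    · rw [if_neg ht]
      push Not at ht
      have := base_le_two N p q hpq t ht.1 ht.2
      rw [Finset.filter_filter]
      exact this
  have hsum : ∑ t : Fin (2 * N + 2), (if t = p ∨ t = q then 0 else 2) = 2 * (2 * N) := by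
    have hne : p ≠ q := by
      rintro rfl
      omega
    have h4 : ∑ t : Fin (2 * N + 2), (if t = p ∨ t = q then 0 else 2) =
        ∑ t ∈ (Finset.univ.erase p).erase q, 2 := by
      rw [← Finset.sum_filter_add_sum_filter_not Finset.univ (fun t => t = p ∨ t = q)]
      have h5 : ∑ t ∈ Finset.univ.filter (fun t : Fin (2 * N + 2) => t = p ∨ t = q), 
          (if t = p ∨ t = q then 0 else 2) = 0 := by
        apply Finset.sum_eq_zero
        intro t ht
        rw [Finset.mem_filter] at ht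
        rw [if_pos ht.2]
      rw [h5, zero_add]
      apply Finset.sum_congr
      · ext t
        simp only [Finset.mem_filter, Finset.mem_univ, true_and, Finset.mem_erase, and_true]
        tauto
      · intro t ht
        simp only [Finset.mem_erase, Finset.mem_univ, and_true] at ht
        rw [if_neg (by tauto)]
    rw [h4, Finset.sum_const, Finset.card_erase_of_mem, Finset.card_erase_of_mem
      (Finset.mem_univ _), Finset.card_univ, Fintype.card_fin, smul_eq_mul]
    · omega
    · rw [Finset.mem_erase]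
      exact ⟨hne.symm, Finset.mem_univ _⟩
  have heq : ∀ t ∈ (Finset.univ : Finset (Fin (2 * N + 2))),
      (U.filter (fun i => nb N i.1 i.2 = t)).card = (if t = p ∨ t = q then 0 else 2) := by
    apply (Finset.sum_eq_sum_iff_of_le hle).1
    rw [hsum, ← hfib, hU]
  have hs := heq s (Finset.mem_univ _)
  rw [if_neg (by tauto)] at hs
  have h6 : {i : Fin (2 * N) × Fin 3 | i.2 ≠ oB N p.val q.val i.1 ∧ nb N i.1 i.2 = s} =
      ((U.filter (fun i => nb N i.1 i.2 = s) : Finset (Fin (2 * N) × Fin 3)) :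
        Set (Fin (2 * N) × Fin 3)) := by
    ext i
    simp [U]
  rw [h6, Set.ncard_coe_finset]
  exact hs

/-- The base data of the honeycomb tube. -/
theorem base_tube (N : ℕ) (p q : Fin (2 * N + 2))
    (hpq : (p.val + 1) / 2 + 6 ≤ (q.val + 1) / 2) :
    Base (nb N) (oB N p.val q.val) p q where
  ne := by
    rintro rfl
    omega
  dead := base_dead N p q hpq
  deg := base_deg N p q hpq
  conn := base_conn N p q hpq

end Pool.Agent.Gru
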