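import Pool.Agent.Gru.Base

set_option autoImplicit false

namespace Pool.Agent.Gru

open SimpleGraph

/-- The vertex type. -/
abbrev VV (N : ℕ) := Fin (2 * N + 2) ⊕ (Fin (2 * N) × Fin 6)

/-- The column of a vertex. -/
def colV (N : ℕ) : VV N → ℕ
  | Sum.inl s => (s.val + 1) / 2
  | Sum.inr (x, _) => x.val / 2 + 1

/-- Which base vertex is deleted instead. -/
def kill (N : ℕ) : VV N → Fin (2 * N + 2)
  | Sum.inl s => s
  | Sum.inr (x, t) => if m3 t = 0 then nb N x 1 else nb N x 0

theorem kill_col (N : ℕ) (v : VV N) : colV N v ≤ ((kill N v).val + 1) / 2 ∧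
    ((kill N v).val + 1) / 2 ≤ colV N v + 1 := by
  rcases v with s | ⟨x, t⟩
  · exact ⟨le_rfl, Nat.le_succ _⟩
  · have hx := x.isLt
    simp only [colV, kill]
    by_cases ht : m3 t = 0
    · rw [if_pos ht, nb1]
      omega
    · rw [if_neg ht, nb0]
      omega

theorem far_HF (N : ℕ) (d e : VV N) (h : colV N d + 7 ≤ colV N e) :
    ∃ F, HF (Gr (nb N)) (fun v => v ≠ d ∧ v ≠ e) F := by
  have hd := kill_col N d
  have he := kill_col N e
  have hpq : ((kill N d).val + 1) / 2 + 6 ≤ ((kill N e).val + 1) / 2 := by omega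
  have hb := base_tube N (kill N d) (kill N e) hpq
  refine lift (oB N (kill N d).val (kill N e).val) (kill N d) (kill N e) hb (nb_inj N) d e ?_ ?_
  · rcases d with s | ⟨x, t⟩
    · exact Or.inl rfl
    · right
      refine ⟨x, t, rfl, ?_⟩
      by_cases ht : m3 t = 0
      · have hk : kill N (Sum.inr (x, t)) = nb N x 1 := if_pos ht
        have := hb.dead x 1 (Or.inl hk.symm)
        rw [← this]
        exact ⟨hk.symm, by rw [ht]; decide⟩
      · have hk : kill N (Sum.inr (x, t)) = nb N x 0 := if_neg ht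
        have := hb.dead x 0 (Or.inl hk.symm)
        rw [← this]
        exact ⟨hk.symm, ht⟩
  · rcases e with s | ⟨x, t⟩
    · exact Or.inl rfl
    · right
      refine ⟨x, t, rfl, ?_⟩
      by_cases ht : m3 t = 0
      · have hk : kill N (Sum.inr (x, t)) = nb N x 1 := if_pos ht
        have := hb.dead x 1 (Or.inr hk.symm)
        rw [← this]
        exact ⟨hk.symm, by rw [ht]; decide⟩
      · have hk : kill N (Sum.inr (x, t)) = nb N x 0 := if_neg ht
        have := hb.dead x 0 (Or.inr hk.symm)
        rw [← this]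
        exact ⟨hk.symm, ht⟩

theorem far_HF' (N : ℕ) (d e : VV N)
    (h : colV N d + 7 ≤ colV N e ∨ colV N e + 7 ≤ colV N d) :
    ∃ F, HF (Gr (nb N)) (fun v => v ≠ d ∧ v ≠ e) F := by
  rcases h with h | h
  · exact far_HF N d e h
  · obtain ⟨F, hF⟩ := far_HF N e d h
    refine ⟨F, hF.le, hF.symm, ?_, ?_, ?_⟩
    · intro u v huv
      exact (hF.alive u v huv).symm
    · intro u hu
      exact hF.deg u hu.symm
    · intro W hW u v hu hv
      exact hF.conn W hW u v hu.symm hv.symm

/-- The position of a vertex in its column. -/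
def code (N : ℕ) : VV N → Fin 2 ⊕ (Fin 2 × Fin 6)
  | Sum.inl s => Sum.inl ⟨s.val % 2, by omega⟩
  | Sum.inr (x, t) => Sum.inr (⟨x.val % 2, by omega⟩, t)

theorem col_code (N : ℕ) (u v : VV N) (h1 : colV N u = colV N v) (h2 : code N u = code N v) :
    u = v := by
  rcases u with s | ⟨x, t⟩ <;> rcases v with s' | ⟨x', t'⟩
  · simp only [colV] at h1
    simp only [code, Sum.inl.injEq, Fin.mk.injEq] at h2
    congr 1
    apply Fin.ext
    omega
  · simp [code] at h2
  · simp [code] at h2
  · simp only [colV] at h1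
    simp only [code, Sum.inr.injEq, Prod.mk.injEq, Fin.mk.injEq] at h2
    congr 1
    rw [Prod.mk.injEq]
    refine ⟨?_, h2.2⟩
    apply Fin.ext
    omega

theorem near_card (N : ℕ) (v : VV N) (E : Set (VV N)) (hv : v ∉ E)
    (hE : ∀ u ∈ E, colV N u ≤ colV N v + 6 ∧ colV N v ≤ colV N u + 6) : E.ncard ≤ 181 := by
  classical
  let f : VV N → ℕ × (Fin 2 ⊕ (Fin 2 × Fin 6)) := fun u => (colV N u + 6 - colV N v, code N u)
  let T : Finset (ℕ × (Fin 2 ⊕ (Fin 2 × Fin 6))) := Finset.range 13 ×ˢ Finset.univ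
  have hinj : Set.InjOn f (insert v E) := by
    intro a ha b hb hab
    have hE' : ∀ u ∈ insert v E, colV N u ≤ colV N v + 6 ∧ colV N v ≤ colV N u + 6 := by
      rintro u (rfl | hu)
      · omega
      · exact hE u hu
    have h1 := hE' a ha
    have h2 := hE' b hb
    simp only [f, Prod.mk.injEq] at hab
    exact col_code N a b (by omega) hab.2
  have hfin : E.Finite := Set.toFinite E
  have hmaps : f '' (insert v E) ⊆ (T : Set _) := by
    rintro y ⟨u, hu, rfl⟩
    have h3 : colV N u ≤ colV N v + 6 ∧ colV N v ≤ colV N u + 6 := by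
      rcases hu with rfl | hu
      · omega
      · exact hE u hu
    simp only [T, Finset.coe_product, Set.mem_prod, Finset.mem_coe, Finset.mem_range, f,
      Finset.mem_univ, and_true]
    omega
  have h4 : (insert v E).ncard ≤ T.card := by
    rw [← hinj.ncard_image, ← Set.ncard_coe_finset]
    exact Set.ncard_le_ncard hmaps (Finset.finite_toSet T)
  have h5 : T.card = 182 := by
    simp [T, Finset.card_product]
  rw [Set.ncard_insert_of_notMem hv hfin] at h4
  omega

end Pool.Agent.Gru
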