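import Mathlib

/-!
Hamiltonian cycles as two-regular connected relations.
-/

set_option autoImplicit false

namespace Pool.Agent.Gru

open SimpleGraph

/-- `F` is (the adjacency relation of) a Hamiltonian cycle of the part of `G` on the alive vertices
`al`, in relational form: two-regular and connected. -/
structure HF {V : Type*} (G : SimpleGraph V) (al : V → Prop) (F : V → V → Prop) : Prop where
  le : ∀ u v, F u v → G.Adj u v
  symm : ∀ u v, F u v → F v u
  alive : ∀ u v, F u v → al u
  deg : ∀ u, al u → {v | F u v}.ncard = 2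
  conn : ∀ W : V → Prop, (∀ u v, F u v → (W u ↔ W v)) → ∀ u v, al u → al v → (W u ↔ W v)

/-- Relational form implies Hamiltonian cycle. -/
theorem ham_of_HF {U V : Type*} [Finite U] [DecidableEq U] [Nonempty U]
    (H : SimpleGraph U) (G : SimpleGraph V) (ψ : U → V) (hψ : Function.Injective ψ)
    (hadj : ∀ a b, G.Adj (ψ a) (ψ b) → H.Adj a b) (al : V → Prop)
    (hal : ∀ v, al v ↔ v ∈ Set.range ψ) (F : V → V → Prop) (h : HF G al F) :
    ∃ a, ∃ p : H.Walk a a, p.IsHamiltonianCycle := by
  classical
  let K : SimpleGraph U :=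
    { Adj := fun a b => F (ψ a) (ψ b)
      symm := ⟨fun a b hab => h.symm _ _ hab⟩
      loopless := ⟨fun a ha => (h.le _ _ ha).ne rfl⟩ }
  have hKH : K ≤ H := fun a b hab => hadj a b (h.le _ _ hab)
  have hncard : ∀ a, (K.neighborSet a).ncard = 2 := by
    intro a
    have h1 : {v | F (ψ a) v} = ψ '' (K.neighborSet a) := by
      ext v
      constructor
      · intro hv
        have hv' : al v := h.alive _ _ (h.symm _ _ hv)
        obtain ⟨b, rfl⟩ := (hal v).1 hv'
        exact ⟨b, hv, rfl⟩
      · rintro ⟨b, hb, rfl⟩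
        exact hb
    have h2 := h.deg (ψ a) ((hal _).2 ⟨a, rfl⟩)
    rw [h1, Set.ncard_image_of_injective _ hψ] at h2
    exact h2
  have hcyc : K.IsCycles := fun a _ => hncard a
  obtain ⟨a0⟩ := (inferInstance : Nonempty U)
  have hne : (K.neighborSet a0).Nonempty := by
    apply Set.nonempty_of_ncard_ne_zero
    rw [hncard]; norm_num
  obtain ⟨p, hp, hps⟩ := hcyc.exists_cycle_toSubgraph_verts_eq_connectedComponentSupp
    (c := K.connectedComponentMk a0) (v := a0) rfl hne
  have hall : ∀ b, b ∈ p.support := by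
    intro b
    rw [← Walk.mem_verts_toSubgraph, hps]
    have := h.conn (fun v => ∃ c, ψ c = v ∧ K.Reachable a0 c) (by
      intro u v huv
      have hu : al u := h.alive _ _ huv
      have hv : al v := h.alive _ _ (h.symm _ _ huv)
      obtain ⟨u', rfl⟩ := (hal u).1 hu
      obtain ⟨v', rfl⟩ := (hal v).1 hv
      have hadj' : K.Adj u' v' := huv
      constructor
      · rintro ⟨c, hc, hr⟩
        have := hψ hc
        subst this
        exact ⟨v', rfl, hr.trans hadj'.reachable⟩
      · rintro ⟨c, hc, hr⟩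
        have := hψ hc
        subst this
        exact ⟨u', rfl, hr.trans hadj'.symm.reachable⟩) (ψ a0) (ψ b)
        ((hal _).2 ⟨a0, rfl⟩) ((hal _).2 ⟨b, rfl⟩)
    obtain ⟨c, hc, hr⟩ := this.1 ⟨a0, rfl, Reachable.refl _⟩
    have := hψ hc
    subst this
    rw [ConnectedComponent.mem_supp_iff, ConnectedComponent.eq]
    exact hr.symm
  have hpH : p.IsHamiltonianCycle := by
    refine ⟨hp, ?_⟩
    apply Walk.IsPath.isHamiltonian_of_mem hp.isPath_tail
    intro b
    have hb := hall b
    rw [Walk.support_tail_of_not_nil _ hp.not_nil]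
    rcases (Walk.mem_support_iff p).1 hb with h1 | h1
    · rw [h1]
      exact Walk.end_mem_tail_support hp.not_nil
    · exact h1
  refine ⟨a0, p.map (Hom.ofLE hKH), ?_⟩
  exact hpH.map Function.bijective_id

/-- A Hamiltonian cycle gives the relational form. -/
theorem HF_of_ham {U V : Type*} [DecidableEq U]
    (H : SimpleGraph U) (G : SimpleGraph V) (ψ : U → V) (hψ : Function.Injective ψ)
    (hadj : ∀ a b, H.Adj a b → G.Adj (ψ a) (ψ b)) (al : V → Prop)
    (hal : ∀ v, al v ↔ v ∈ Set.range ψ) (a0 : U) (p : H.Walk a0 a0)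
    (hp : p.IsHamiltonianCycle) :
    ∃ F : V → V → Prop, HF G al F := by
  classical
  refine ⟨fun u v => ∃ a b, ψ a = u ∧ ψ b = v ∧ p.toSubgraph.Adj a b, ?_⟩
  refine ⟨?_, ?_, ?_, ?_, ?_⟩
  · rintro u v ⟨a, b, rfl, rfl, hab⟩
    exact hadj _ _ hab.adj_sub
  · rintro u v ⟨a, b, rfl, rfl, hab⟩
    exact ⟨b, a, rfl, rfl, hab.symm⟩
  · rintro u v ⟨a, b, rfl, rfl, hab⟩
    exact (hal _).2 ⟨a, rfl⟩
  · intro u hu
    obtain ⟨a, rfl⟩ := (hal u).1 hu
    have h1 : {v | ∃ a' b, ψ a' = ψ a ∧ ψ b = v ∧ p.toSubgraph.Adj a' b}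
        = ψ '' (p.toSubgraph.neighborSet a) := by
      ext v
      constructor
      · rintro ⟨a', b, ha, rfl, hab⟩
        have := hψ ha
        subst this
        exact ⟨b, hab, rfl⟩
      · rintro ⟨b, hb, rfl⟩
        exact ⟨a, b, rfl, rfl, hb⟩
    rw [h1, Set.ncard_image_of_injective _ hψ]
    exact hp.isCycle.ncard_neighborSet_toSubgraph_eq_two (hp.mem_support a)
  · intro W hW u v hu hv
    obtain ⟨a, rfl⟩ := (hal u).1 hu
    obtain ⟨b, rfl⟩ := (hal v).1 hv
    have key : ∀ c ∈ p.support, (W (ψ a0) ↔ W (ψ c)) := by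
      intro c hc
      have hq : ∀ {x y : U} (q : H.Walk x y),
          (∀ s t, q.toSubgraph.Adj s t → p.toSubgraph.Adj s t) → (W (ψ x) ↔ W (ψ y)) := by
        intro x y q
        induction q with
        | nil => intro _; exact Iff.rfl
        | cons hxy q ih =>
          intro hs
          rename_i x y z
          have h1 : (W (ψ x) ↔ W (ψ y)) := by
            apply hW
            refine ⟨x, y, rfl, rfl, hs _ _ ?_⟩
            simp [Walk.toSubgraph]
          have h2 := ih (fun s t hst => hs s t (by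
            simp only [Walk.toSubgraph, Subgraph.sup_adj]
            exact Or.inr hst))
          exact h1.trans h2
      have htake : (p.takeUntil c hc).toSubgraph ≤ p.toSubgraph := by
        conv_rhs => rw [← p.take_spec hc]
        rw [Walk.toSubgraph_append]
        exact le_sup_left
      exact hq (p.takeUntil c hc) (fun s t hst => htake.2 hst)
    exact ((key a (hp.mem_support a)).symm).trans (key b (hp.mem_support b))

end Pool.Agent.Gru
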