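import Pool.Agent.Gru.HF

/-!
Inserting one or two vertices into an edge of a Hamiltonian cycle in relational form.
-/

set_option autoImplicit false

namespace Pool.Agent.Gru

open SimpleGraph

/-- The relation obtained from `F` by replacing the edge `x - y` by the path `x - a - y`. -/
def ins {V : Type*} (F : V → V → Prop) (x y a : V) (u v : V) : Prop :=
  (F u v ∧ ¬(u = x ∧ v = y) ∧ ¬(u = y ∧ v = x)) ∨ (u = x ∧ v = a) ∨ (u = a ∧ v = x) ∨
    (u = y ∧ v = a) ∨ (u = a ∧ v = y)

theorem HF.to {V : Type*} {G H : SimpleGraph V} {al : V → Prop} {F : V → V → Prop}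
    (h : HF G al F) (hle : ∀ u v, F u v → H.Adj u v) : HF H al F :=
  ⟨hle, h.symm, h.alive, h.deg, h.conn⟩

theorem HF.congr {V : Type*} {G : SimpleGraph V} {al al' : V → Prop} {F : V → V → Prop}
    (h : HF G al F) (hal : ∀ u, al u ↔ al' u) : HF G al' F :=
  ⟨h.le, h.symm, fun u v huv => (hal u).1 (h.alive u v huv), fun u hu => h.deg u ((hal u).2 hu),
    fun W hW u v hu hv => h.conn W hW u v ((hal u).2 hu) ((hal v).2 hv)⟩

theorem ins_top {V : Type*} {G : SimpleGraph V} {al : V → Prop} {F : V → V → Prop}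
    (h : HF G al F) {x y a : V} (hxy : F x y) (ha : ¬ al a) :
    HF (⊤ : SimpleGraph V) (fun u => al u ∨ u = a) (ins F x y a) := by
  classical
  have hyx := h.symm _ _ hxy
  have hx : al x := h.alive _ _ hxy
  have hy : al y := h.alive _ _ hyx
  have hne : x ≠ y := (h.le _ _ hxy).ne
  have hax : a ≠ x := by rintro rfl; exact ha hx
  have hay : a ≠ y := by rintro rfl; exact ha hy
  have hFa : ∀ v, ¬ F a v := fun v hv => ha (h.alive _ _ hv)
  have hFa' : ∀ v, ¬ F v a := fun v hv => ha (h.alive _ _ (h.symm _ _ hv))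
  refine ⟨?_, ?_, ?_, ?_, ?_⟩
  · rintro u v (⟨h1, -, -⟩ | ⟨rfl, rfl⟩ | ⟨rfl, rfl⟩ | ⟨rfl, rfl⟩ | ⟨rfl, rfl⟩)
    · exact (top_adj u v).2 (h.le _ _ h1).ne
    · exact (top_adj _ _).2 hax.symm
    · exact (top_adj _ _).2 hax
    · exact (top_adj _ _).2 hay.symm
    · exact (top_adj _ _).2 hay
  · rintro u v (⟨h1, h2, h3⟩ | h1 | h1 | h1 | h1)
    · exact Or.inl ⟨h.symm _ _ h1, fun h => h3 ⟨h.2, h.1⟩, fun h => h2 ⟨h.2, h.1⟩⟩
    · exact Or.inr (Or.inr (Or.inl ⟨h1.2, h1.1⟩))
    · exact Or.inr (Or.inl ⟨h1.2, h1.1⟩)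
    · exact Or.inr (Or.inr (Or.inr (Or.inr ⟨h1.2, h1.1⟩)))
    · exact Or.inr (Or.inr (Or.inr (Or.inl ⟨h1.2, h1.1⟩)))
  · rintro u v (⟨h1, -, -⟩ | ⟨rfl, rfl⟩ | ⟨rfl, rfl⟩ | ⟨rfl, rfl⟩ | ⟨rfl, rfl⟩)
    · exact Or.inl (h.alive _ _ h1)
    · exact Or.inl hx
    · exact Or.inr rfl
    · exact Or.inl hy
    · exact Or.inr rfl
  · intro u hu
    by_cases hua : u = a
    · subst hua
      have : {v | ins F x y u u v} = {x, y} := by
        ext v
        simp only [Set.mem_ofPred_eq, Set.mem_insert_iff, Set.mem_singleton_iff]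
        constructor
        · rintro (⟨h1, -, -⟩ | ⟨h1, -⟩ | ⟨-, h1⟩ | ⟨h1, -⟩ | ⟨-, h1⟩)
          · exact absurd h1 (hFa v)
          · exact absurd h1 hax
          · exact Or.inl h1
          · exact absurd h1 hay
          · exact Or.inr h1
        · rintro (h1 | h1)
          · exact Or.inr (Or.inr (Or.inl ⟨rfl, h1⟩))
          · exact Or.inr (Or.inr (Or.inr (Or.inr ⟨rfl, h1⟩)))
      rw [this, Set.ncard_pair hne]
    · have hu' : al u := hu.resolve_right hua
      have hd := h.deg u hu'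
      have hfin : {v | F u v}.Finite := Set.finite_of_ncard_ne_zero (by rw [hd]; norm_num)
      have key : ∀ z : V, F u z → z ≠ a →
          (insert a ({v | F u v} \ {z})).ncard = 2 := by
        intro z hz hza
        rw [Set.ncard_insert_of_notMem (by
          rintro ⟨h1, -⟩
          exact hFa' u h1) (hfin.sdiff),
          Set.ncard_sdiff_singleton_of_mem (show z ∈ {v | F u v} from hz), hd]
      by_cases hux : u = x
      · subst hux
        rw [← key y hxy hay.symm]
        congr 1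
        ext v
        simp only [Set.mem_ofPred_eq, Set.mem_insert_iff, Set.mem_sdiff,
          Set.mem_singleton_iff]
        constructor
        · rintro (⟨h1, h2, h3⟩ | ⟨-, h1⟩ | ⟨h1, -⟩ | ⟨h1, -⟩ | ⟨h1, -⟩)
          · exact Or.inr ⟨h1, fun h4 => h2 ⟨rfl, h4⟩⟩
          · exact Or.inl h1
          · exact absurd h1 hua
          · exact absurd h1 hne
          · exact absurd h1 hua
        · rintro (h1 | ⟨h1, h2⟩)
          · exact Or.inr (Or.inl ⟨rfl, h1⟩)
          · exact Or.inl ⟨h1, fun h3 => h2 h3.2, fun h3 => hne h3.1⟩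
      · by_cases huy : u = y
        · subst huy
          rw [← key x hyx hax.symm]
          congr 1
          ext v
          simp only [Set.mem_ofPred_eq, Set.mem_insert_iff, Set.mem_sdiff,
            Set.mem_singleton_iff]
          constructor
          · rintro (⟨h1, h2, h3⟩ | ⟨h1, -⟩ | ⟨h1, -⟩ | ⟨-, h1⟩ | ⟨h1, -⟩)
            · exact Or.inr ⟨h1, fun h4 => h3 ⟨rfl, h4⟩⟩
            · exact absurd h1 hux
            · exact absurd h1 hua
            · exact Or.inl h1
            · exact absurd h1 hua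
          · rintro (h1 | ⟨h1, h2⟩)
            · exact Or.inr (Or.inr (Or.inr (Or.inl ⟨rfl, h1⟩)))
            · exact Or.inl ⟨h1, fun h3 => hux h3.1, fun h3 => h2 h3.2⟩
        · rw [← hd]
          congr 1
          ext v
          simp only [Set.mem_ofPred_eq]
          constructor
          · rintro (⟨h1, -, -⟩ | ⟨h1, -⟩ | ⟨h1, -⟩ | ⟨h1, -⟩ | ⟨h1, -⟩)
            · exact h1
            · exact absurd h1 hux
            · exact absurd h1 hua
            · exact absurd h1 huy
            · exact absurd h1 hua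
          · intro h1
            exact Or.inl ⟨h1, fun h2 => hux h2.1, fun h2 => huy h2.1⟩
  · intro W hW
    have h1 : W x ↔ W a := hW _ _ (Or.inr (Or.inl ⟨rfl, rfl⟩))
    have h2 : W y ↔ W a := hW _ _ (Or.inr (Or.inr (Or.inr (Or.inl ⟨rfl, rfl⟩))))
    have h3 : ∀ u v, F u v → (W u ↔ W v) := by
      intro u v huv
      by_cases h4 : u = x ∧ v = y
      · rw [h4.1, h4.2]; exact h1.trans h2.symm
      · by_cases h5 : u = y ∧ v = x
        · rw [h5.1, h5.2]; exact h2.trans h1.symm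
        · exact hW _ _ (Or.inl ⟨huv, h4, h5⟩)
    have h4 : ∀ u, (al u ∨ u = a) → (W u ↔ W x) := by
      rintro u (hu | rfl)
      · exact h.conn W h3 u x hu hx
      · exact h1.symm
    intro u v hu hv
    exact (h4 u hu).trans (h4 v hv).symm

/-- Insert `a` into the edge `x - y`. -/
theorem ins_one {V : Type*} {G : SimpleGraph V} {al : V → Prop} {F : V → V → Prop}
    (h : HF G al F) {x y a : V} (hxy : F x y) (ha : ¬ al a) (hxa : G.Adj x a)
    (hya : G.Adj y a) : HF G (fun u => al u ∨ u = a) (ins F x y a) := by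
  refine (ins_top h hxy ha).to ?_
  rintro u v (⟨h1, -, -⟩ | ⟨rfl, rfl⟩ | ⟨rfl, rfl⟩ | ⟨rfl, rfl⟩ | ⟨rfl, rfl⟩)
  · exact h.le _ _ h1
  · exact hxa
  · exact hxa.symm
  · exact hya
  · exact hya.symm

/-- Insert the path `a - b` into the edge `x - y`. -/
theorem ins_two {V : Type*} {G : SimpleGraph V} {al : V → Prop} {F : V → V → Prop}
    (h : HF G al F) {x y a b : V} (hxy : F x y) (ha : ¬ al a) (hb : ¬ al b)
    (hxa : G.Adj x a) (hab : G.Adj a b) (hyb : G.Adj y b) :
    HF G (fun u => (al u ∨ u = a) ∨ u = b) (ins (ins F x y a) a y b) := by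
  have h1 := ins_top h hxy ha
  have hay : ins F x y a a y := Or.inr (Or.inr (Or.inr (Or.inr ⟨rfl, rfl⟩)))
  refine (ins_top h1 hay (a := b) (by
    rintro (h2 | h2)
    · exact hb h2
    · exact hab.ne h2.symm)).to ?_
  rintro u v (⟨h2, h3, h4⟩ | ⟨rfl, rfl⟩ | ⟨rfl, rfl⟩ | ⟨rfl, rfl⟩ | ⟨rfl, rfl⟩)
  · rcases h2 with ⟨h5, -, -⟩ | ⟨rfl, rfl⟩ | ⟨rfl, rfl⟩ | h5 | h5
    · exact h.le _ _ h5
    · exact hxa
    · exact hxa.symm
    · exact absurd h5 h4
    · exact absurd h5 h3
  · exact hab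
  · exact hab.symm
  · exact hyb
  · exact hyb.symm

end Pool.Agent.Gru
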