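import Pool.Agent.Gru.NonHam

set_option autoImplicit false

namespace Pool.Agent.Gru

open SimpleGraph Finset

/-- `Fin 3` into `Fin 6`. -/
def c6 (k : Fin 3) : Fin 6 := ⟨k.val, by omega⟩

/-- Which vertices of the 6-cycle are attached to `S`. -/
def att (μ : Option (Fin 6)) (k : Fin 3) (t : Fin 6) : Bool :=
  match μ with
  | none => decide (t = c6 k + 1 ∨ t = c6 k + 2)
  | some t0 => if k = m3 t0 + 2 then decide (t = t0 + 1 ∨ t = t0 + 2 ∨ t = t0 + 3 ∨ t = t0 + 5)
      else decide (t = t0 + 1 ∨ t = t0 + 3 ∨ t = t0 + 4 ∨ t = t0 + 5)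

/-- Which edges `(t, t+1)` of the 6-cycle are used. -/
def ed (μ : Option (Fin 6)) (k : Fin 3) (t : Fin 6) : Bool :=
  match μ with
  | none => decide (t ≠ c6 k + 1)
  | some t0 => decide (t ≠ t0 ∧ t ≠ t0 + 5) && 
      (if k = m3 t0 + 2 then decide (t ≠ t0 + 2) else decide (t ≠ t0 + 3))

/-- validity of a local state. -/
def okk (μ : Option (Fin 6)) (k : Fin 3) : Prop := ∀ t0, μ = some t0 → m3 t0 ≠ k

instance (μ : Option (Fin 6)) (k : Fin 3) : Decidable (okk μ k) := by
  unfold okk; infer_instance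

theorem c1 : ∀ (μ : Option (Fin 6)) (k : Fin 3) (t : Fin 6), okk μ k → μ ≠ some t →
    (ed μ k t = true ∧ ed μ k (t + 5) = true ∧ att μ k t = false) ∨
    (ed μ k t = true ∧ ed μ k (t + 5) = false ∧ att μ k t = true) ∨
    (ed μ k t = false ∧ ed μ k (t + 5) = true ∧ att μ k t = true) := by decide

theorem c2 : ∀ (k : Fin 3) (t : Fin 6), 
    ed (some t) k t = false ∧ ed (some t) k (t + 5) = false ∧ att (some t) k t = false := by decide

/-- The unique attached position of slot `k'`. -/
def tau (μ : Option (Fin 6)) (k k' : Fin 3) : Fin 6 := if att μ k (c6 k') then c6 k' else c6 k' + 3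

theorem c3 : ∀ (μ : Option (Fin 6)) (k k' : Fin 3), okk μ k → k' ≠ k →
    m3 (tau μ k k') = k' ∧ att μ k (tau μ k k') = true ∧
    ∀ t, m3 t = k' → att μ k t = true → t = tau μ k k' := by decide

theorem c4 : ∀ (k : Fin 3) (t : Fin 6), m3 t = k → att none k t = false := by decide

theorem c4' : ∀ (t0 : Fin 6) (k : Fin 3), m3 t0 ≠ k → 
    att (some t0) k (c6 k) = true ∧ att (some t0) k (c6 k + 3) = true := by decide

theorem c5 : ∀ (k : Fin 3) (t : Fin 6), m3 t = k → t = c6 k ∨ t = c6 k + 3 := by decide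

theorem c6m : ∀ k : Fin 3, m3 (c6 k) = k ∧ m3 (c6 k + 3) = k ∧ c6 k ≠ c6 k + 3 := by decide

theorem c7b : ∀ (μ : Option (Fin 6)) (k : Fin 3), okk μ k → ∀ w0 w1 w2 w3 w4 w5 z0 z1 z2 : Bool,
    let w : Fin 6 → Bool := ![w0, w1, w2, w3, w4, w5]
    let z : Fin 3 → Bool := ![z0, z1, z2]
    (∀ t, ed μ k t = true → w t = w (t + 1)) →
    (∀ t, att μ k t = true → w t = z (m3 t)) →
    (z (k + 2) = z (k + 1)) ∧ (μ ≠ none → z k = z (k + 1)) ∧
    (∀ t, μ ≠ some t → w t = z (k + 1)) := by decide

/-- local connectivity -/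
theorem c7 (μ : Option (Fin 6)) (k : Fin 3) (hok : okk μ k) (w : Fin 6 → Prop) (z : Fin 3 → Prop)
    (h1 : ∀ t, ed μ k t = true → (w t ↔ w (t + 1)))
    (h2 : ∀ t, att μ k t = true → (w t ↔ z (m3 t))) :
    (z (k + 2) ↔ z (k + 1)) ∧ (μ ≠ none → (z k ↔ z (k + 1))) ∧
    (∀ t, μ ≠ some t → (w t ↔ z (k + 1))) := by
  classical
  have hw : (fun t => decide (w t)) = ![decide (w 0), decide (w 1), decide (w 2), decide (w 3),
      decide (w 4), decide (w 5)] := by
    ext t
    fin_cases t <;> rfl
  have hz : (fun t => decide (z t)) = ![decide (z 0), decide (z 1), decide (z 2)] := by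
    ext t
    fin_cases t <;> rfl
  have := c7b μ k hok (decide (w 0)) (decide (w 1)) (decide (w 2)) (decide (w 3))
      (decide (w 4)) (decide (w 5)) (decide (z 0)) (decide (z 1)) (decide (z 2))
  rw [← hw, ← hz] at this
  simpa using this (by simpa using h1) (by simpa using h2)

section
variable {S X : Type*} {nbr : X → Fin 3 → S}

/-- The base data: after deleting `p, q` the base graph has a Hamiltonian cycle which at each `x`
omits the neighbour with index `o x`. -/
structure Base (nbr : X → Fin 3 → S) (o : X → Fin 3) (p q : S) : Prop where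
  ne : p ≠ q
  dead : ∀ x k, (nbr x k = p ∨ nbr x k = q) → k = o x
  deg : ∀ s, s ≠ p → s ≠ q → {i : X × Fin 3 | i.2 ≠ o i.1 ∧ nbr i.1 i.2 = s}.ncard = 2
  conn : ∀ w : S → Prop,
    (∀ x k k', k ≠ o x → k' ≠ o x → (w (nbr x k) ↔ w (nbr x k'))) →
    ∀ s s', s ≠ p → s ≠ q → s' ≠ p → s' ≠ q → (w s ↔ w s')

/-- `d` is a vertex of the glued graph whose deletion is simulated by deleting `p`. -/
def Del (nbr : X → Fin 3 → S) (o : X → Fin 3) (p : S) (d : S ⊕ X × Fin 6) : Prop :=
  d = Sum.inl p ∨ ∃ x t, d = Sum.inr (x, t) ∧ nbr x (o x) = p ∧ m3 t ≠ o x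

/-- The lifted relation. -/
def FF (nbr : X → Fin 3 → S) (o : X → Fin 3) (μ : X → Option (Fin 6)) :
    S ⊕ X × Fin 6 → S ⊕ X × Fin 6 → Prop
  | Sum.inl _, Sum.inl _ => False
  | Sum.inl s, Sum.inr (x, t) => s = nbr x (m3 t) ∧ att (μ x) (o x) t = true
  | Sum.inr (x, t), Sum.inl s => s = nbr x (m3 t) ∧ att (μ x) (o x) t = true
  | Sum.inr (x, t), Sum.inr (y, u) => x = y ∧
      ((u = t + 1 ∧ ed (μ x) (o x) t = true) ∨ (t = u + 1 ∧ ed (μ x) (o x) u = true))

theorem FF_HF (o : X → Fin 3) (p q : S) (hb : Base nbr o p q)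
    (hinj : ∀ x, Function.Injective (nbr x))
    (μ : X → Option (Fin 6)) (al : S ⊕ X × Fin 6 → Prop)
    (μ1 : ∀ x t, μ x = some t → m3 t ≠ o x ∧ (nbr x (o x) = p ∨ nbr x (o x) = q))
    (μ2 : ∀ x t, al (Sum.inr (x, t)) ↔ μ x ≠ some t)
    (μ3 : ∀ s, (s = p ∨ s = q) → (al (Sum.inl s) ↔ ∃ x t, μ x = some t ∧ nbr x (o x) = s))
    (μ3' : ∀ x x', μ x ≠ none → μ x' ≠ none → nbr x (o x) = nbr x' (o x') → x = x')
    (μ4 : ∀ s, s ≠ p → s ≠ q → al (Sum.inl s)) :
    HF (Gr nbr) al (FF nbr o μ) := by
  classical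
  have hok : ∀ x, okk (μ x) (o x) := fun x t0 ht => (μ1 x t0 ht).1
  have hsymm : ∀ u v, FF nbr o μ u v → FF nbr o μ v u := by
    rintro (s | ⟨x, t⟩) (s' | ⟨y, u⟩) h
    · exact h
    · exact h
    · exact h
    · obtain ⟨rfl, h⟩ := h
      exact ⟨rfl, h.symm⟩
  have hsl : ∀ s x t, FF nbr o μ (Sum.inl s) (Sum.inr (x, t)) → al (Sum.inl s) := by
    rintro s x t ⟨h1, h2⟩
    by_cases hs : s = p ∨ s = q
    · rw [μ3 s hs]
      have hk := hb.dead x (m3 t) (by rw [← h1]; exact hs)
      rcases hμ : μ x with _ | t0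
      · rw [hμ, c4 _ _ hk] at h2
        exact absurd h2 (by simp)
      · exact ⟨x, t0, hμ, by rw [← hk, h1]⟩
    · push Not at hs
      exact μ4 s hs.1 hs.2
  have hlx : ∀ x t v, FF nbr o μ (Sum.inr (x, t)) v → al (Sum.inr (x, t)) := by
    intro x t v h
    rw [μ2]
    intro hμ
    rcases v with s | ⟨y, u⟩
    · have h2 := h.2
      rw [hμ, (c2 _ _).2.2] at h2
      exact absurd h2 (by simp)
    · obtain ⟨rfl, ⟨h1, h2⟩ | ⟨h1, h2⟩⟩ := h
      · rw [hμ, (c2 _ _).1] at h2
        exact absurd h2 (by simp)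
      · have h3 : ∀ u : Fin 6, u = u + 1 + 5 := by decide
        have h4 := h3 u
        rw [← h1] at h4
        rw [hμ, h4, (c2 _ _).2.1] at h2
        exact absurd h2 (by simp)
  refine ⟨?_, hsymm, ?_, ?_, ?_⟩
  · rintro (s | ⟨x, t⟩) (s' | ⟨y, u⟩) h
    · exact h
    · exact h.1
    · exact h.1
    · obtain ⟨rfl, h⟩ := h
      refine ⟨rfl, ?_⟩
      rcases h with h | h
      · exact Or.inl h.1
      · exact Or.inr h.1
  · rintro (s | ⟨x, t⟩) v h
    · rcases v with s' | ⟨y, u⟩
      · exact absurd h (fun h => h)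
      · exact hsl s y u h
    · exact hlx x t v h
  · rintro (s | ⟨x, t⟩) hal
    · by_cases hs : s = p ∨ s = q
      · rw [μ3 s hs] at hal
        obtain ⟨x, t0, hμ, hx⟩ := hal
        have h1 : {v | FF nbr o μ (Sum.inl s) v} =
            {Sum.inr (x, c6 (o x)), Sum.inr (x, c6 (o x) + 3)} := by
          ext v
          simp only [Set.mem_ofPred_eq, Set.mem_insert_iff, Set.mem_singleton_iff]
          constructor
          · intro hv
            rcases v with s' | ⟨y, u⟩
            · exact absurd hv (fun h => h)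
            · obtain ⟨hv1, hv2⟩ := hv
              have hk := hb.dead y (m3 u) (by rw [← hv1]; exact hs)
              have hy : μ y ≠ none := by
                intro hy
                rw [hy, c4 _ _ hk] at hv2
                exact absurd hv2 (by simp)
              have hxy : x = y := by
                apply μ3' x y (by rw [hμ]; simp) hy
                rw [hx, ← hk, hv1]
              subst hxy
              rcases c5 _ _ hk with h5 | h5
              · left; rw [h5]
              · right; rw [h5]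
          · have hm := c6m (o x)
            have h4 := c4' t0 (o x) (μ1 x t0 hμ).1
            rintro (rfl | rfl)
            · exact ⟨by rw [hm.1, hx], by rw [hμ]; exact h4.1⟩
            · exact ⟨by rw [hm.2.1, hx], by rw [hμ]; exact h4.2⟩
        rw [h1]
        apply Set.ncard_pair
        intro heq
        simp only [Sum.inr.injEq, Prod.mk.injEq, true_and] at heq
        exact (c6m (o x)).2.2 heq
      · push Not at hs
        rw [← hb.deg s hs.1 hs.2]
        have h1 : {v | FF nbr o μ (Sum.inl s) v} =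
            (fun i : X × Fin 3 => (Sum.inr (i.1, tau (μ i.1) (o i.1) i.2) : S ⊕ X × Fin 6)) ''
              {i : X × Fin 3 | i.2 ≠ o i.1 ∧ nbr i.1 i.2 = s} := by
          ext v
          simp only [Set.mem_ofPred_eq, Set.mem_image]
          constructor
          · intro hv
            rcases v with s' | ⟨y, u⟩
            · exact absurd hv (fun h => h)
            · obtain ⟨hv1, hv2⟩ := hv
              have hne : m3 u ≠ o y := by
                intro hk
                rcases hμ : μ y with _ | t0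
                · rw [hμ, c4 _ _ hk] at hv2
                  exact absurd hv2 (by simp)
                · have := (μ1 y t0 hμ).2
                  rw [← hk, ← hv1] at this
                  rcases this with h | h
                  · exact hs.1 h
                  · exact hs.2 h
              refine ⟨(y, m3 u), ⟨hne, hv1.symm⟩, ?_⟩
              have := (c3 (μ y) (o y) (m3 u) (hok y) hne).2.2 u rfl hv2
              show Sum.inr (y, tau (μ y) (o y) (m3 u)) = Sum.inr (y, u)
              rw [← this]
          · rintro ⟨⟨y, k⟩, ⟨h1, h2⟩, rfl⟩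
            have := c3 (μ y) (o y) k (hok y) h1
            refine ⟨?_, this.2.1⟩
            show s = nbr y (m3 (tau (μ y) (o y) k))
            rw [this.1]
            exact h2.symm
        rw [h1, Set.InjOn.ncard_image]
        rintro ⟨y, k⟩ ⟨h1, h2⟩ ⟨y', k'⟩ ⟨h1', h2'⟩ heq
        simp only [Sum.inr.injEq, Prod.mk.injEq] at heq
        obtain ⟨rfl, heq⟩ := heq
        have e1 := (c3 (μ y) (o y) k (hok y) h1).1
        have e2 := (c3 (μ y) (o y) k' (hok y) h1').1
        rw [heq, e2] at e1
        rw [e1]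
    · rw [μ2] at hal
      have h3 : ∀ u : Fin 6, u + 5 + 1 = u := by decide
      have h3' : ∀ u : Fin 6, u + 1 + 5 = u := by decide
      have h3'' : ∀ u : Fin 6, u + 1 ≠ u + 5 := by decide
      have hmem : ∀ v, FF nbr o μ (Sum.inr (x, t)) v ↔
          (v = Sum.inr (x, t + 1) ∧ ed (μ x) (o x) t = true) ∨
          (v = Sum.inr (x, t + 5) ∧ ed (μ x) (o x) (t + 5) = true) ∨
          (v = Sum.inl (nbr x (m3 t)) ∧ att (μ x) (o x) t = true) := by
        intro v
        rcases v with s | ⟨y, u⟩
        · constructor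
          · rintro ⟨rfl, h⟩
            exact Or.inr (Or.inr ⟨rfl, h⟩)
          · rintro (⟨h, _⟩ | ⟨h, _⟩ | ⟨h, h'⟩)
            · exact absurd h (by simp)
            · exact absurd h (by simp)
            · exact ⟨Sum.inl.inj h, h'⟩
        · constructor
          · rintro ⟨rfl, ⟨rfl, h⟩ | ⟨rfl, h⟩⟩
            · exact Or.inl ⟨rfl, h⟩
            · refine Or.inr (Or.inl ⟨?_, ?_⟩)
              · rw [h3']
              · rw [h3']; exact h
          · rintro (⟨h, h'⟩ | ⟨h, h'⟩ | ⟨h, h'⟩)
            · simp only [Sum.inr.injEq, Prod.mk.injEq] at h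
              exact ⟨h.1.symm, Or.inl ⟨h.2, h'⟩⟩
            · simp only [Sum.inr.injEq, Prod.mk.injEq] at h
              refine ⟨h.1.symm, Or.inr ⟨?_, ?_⟩⟩
              · rw [h.2, h3]
              · rw [h.2]; exact h'
            · exact absurd h (by simp)
      rcases c1 (μ x) (o x) t (hok x) hal with ⟨ha, hb', hc⟩ | ⟨ha, hb', hc⟩ | ⟨ha, hb', hc⟩
      · have h1 : {v | FF nbr o μ (Sum.inr (x, t)) v} =
            {Sum.inr (x, t + 1), Sum.inr (x, t + 5)} := by
          ext v
          simp only [Set.mem_ofPred_eq, Set.mem_insert_iff, Set.mem_singleton_iff]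
          rw [hmem, ha, hb', hc]
          simp
        rw [h1]
        apply Set.ncard_pair
        intro heq
        simp only [Sum.inr.injEq, Prod.mk.injEq, true_and] at heq
        exact h3'' t heq
      · have h1 : {v | FF nbr o μ (Sum.inr (x, t)) v} =
            {Sum.inr (x, t + 1), Sum.inl (nbr x (m3 t))} := by
          ext v
          simp only [Set.mem_ofPred_eq, Set.mem_insert_iff, Set.mem_singleton_iff]
          rw [hmem, ha, hb', hc]
          simp
        rw [h1]
        apply Set.ncard_pair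
        simp
      · have h1 : {v | FF nbr o μ (Sum.inr (x, t)) v} =
            {Sum.inr (x, t + 5), Sum.inl (nbr x (m3 t))} := by
          ext v
          simp only [Set.mem_ofPred_eq, Set.mem_insert_iff, Set.mem_singleton_iff]
          rw [hmem, ha, hb', hc]
          simp
        rw [h1]
        apply Set.ncard_pair
        simp
  · intro W hW
    have hloc : ∀ x, (W (Sum.inl (nbr x (o x + 2))) ↔ W (Sum.inl (nbr x (o x + 1)))) ∧
        (μ x ≠ none → (W (Sum.inl (nbr x (o x))) ↔ W (Sum.inl (nbr x (o x + 1))))) ∧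
        (∀ t, μ x ≠ some t → (W (Sum.inr (x, t)) ↔ W (Sum.inl (nbr x (o x + 1))))) := by
      intro x
      apply c7 (μ x) (o x) (hok x) (fun t => W (Sum.inr (x, t))) (fun k => W (Sum.inl (nbr x k)))
      · intro t ht
        exact hW _ _ ⟨rfl, Or.inl ⟨rfl, ht⟩⟩
      · intro t ht
        exact hW (Sum.inr (x, t)) (Sum.inl (nbr x (m3 t))) ⟨rfl, ht⟩
    have hkk : ∀ a b : Fin 3, b ≠ a → b = a + 1 ∨ b = a + 2 := by decide
    have hka : ∀ a : Fin 3, a + 1 ≠ a := by decide
    have hbase : ∀ x k, k ≠ o x → (W (Sum.inl (nbr x k)) ↔ W (Sum.inl (nbr x (o x + 1)))) := by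
      intro x k hk
      rcases hkk _ _ hk with rfl | rfl
      · exact Iff.rfl
      · exact (hloc x).1
    have hconn := hb.conn (fun s => W (Sum.inl s)) (by
      intro x k k' hk hk'
      exact (hbase x k hk).trans (hbase x k' hk').symm)
    -- every alive vertex is equivalent to a base-alive vertex
    have hne : ∀ x k, k ≠ o x → nbr x k ≠ p ∧ nbr x k ≠ q := by
      intro x k hk
      constructor
      · intro h; exact hk (hb.dead x k (Or.inl h))
      · intro h; exact hk (hb.dead x k (Or.inr h))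
    have hrep : ∀ v, al v → ∃ s, s ≠ p ∧ s ≠ q ∧ (W v ↔ W (Sum.inl s)) := by
      rintro (s | ⟨x, t⟩) hal
      · by_cases hs : s = p ∨ s = q
        · rw [μ3 s hs] at hal
          obtain ⟨x, t0, hμ, hx⟩ := hal
          refine ⟨nbr x (o x + 1), (hne x _ (hka _)).1, (hne x _ (hka _)).2, ?_⟩
          rw [← hx]
          exact (hloc x).2.1 (by rw [hμ]; simp)
        · push Not at hs
          exact ⟨s, hs.1, hs.2, Iff.rfl⟩
      · rw [μ2] at hal
        exact ⟨nbr x (o x + 1), (hne x _ (hka _)).1, (hne x _ (hka _)).2, (hloc x).2.2 t hal⟩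
    intro u v hu hv
    obtain ⟨s, hs1, hs2, hs3⟩ := hrep u hu
    obtain ⟨s', hs1', hs2', hs3'⟩ := hrep v hv
    exact hs3.trans ((hconn s s' hs1 hs2 hs1' hs2').trans hs3'.symm)

/-- The lifting theorem. -/
theorem lift (o : X → Fin 3) (p q : S) (hb : Base nbr o p q)
    (hinj : ∀ x, Function.Injective (nbr x)) (d e : S ⊕ X × Fin 6)
    (hd : Del nbr o p d) (he : Del nbr o q e) :
    ∃ F, HF (Gr nbr) (fun v => v ≠ d ∧ v ≠ e) F := by
  classical
  let μ : X → Option (Fin 6) := fun x =>
    if h : ∃ t, d = Sum.inr (x, t) ∨ e = Sum.inr (x, t) then some h.choose else none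
  have hμ : ∀ x t, μ x = some t ↔ (d = Sum.inr (x, t) ∨ e = Sum.inr (x, t)) := by
    intro x t
    constructor
    · intro h
      by_cases h1 : ∃ t, d = Sum.inr (x, t) ∨ e = Sum.inr (x, t)
      · have h2 : μ x = some h1.choose := dif_pos h1
        rw [h2] at h
        have := h1.choose_spec
        rw [Option.some.inj h] at this
        exact this
      · have h2 : μ x = none := dif_neg h1
        rw [h2] at h
        exact absurd h (by simp)
    · intro h
      have h1 : ∃ t, d = Sum.inr (x, t) ∨ e = Sum.inr (x, t) := ⟨t, h⟩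
      have h2 : μ x = some h1.choose := dif_pos h1
      rw [h2]
      have h3 := h1.choose_spec
      set t' := h1.choose
      congr 1
      -- d and e are at different x
      have hdx : ∀ y s, d = Sum.inr (y, s) → nbr y (o y) = p := by
        intro y s hy
        rcases hd with h | ⟨x', s', h, h', _⟩
        · rw [h] at hy; exact absurd hy (by simp)
        · rw [h] at hy
          simp only [Sum.inr.injEq, Prod.mk.injEq] at hy
          rw [← hy.1]; exact h'
      have hex : ∀ y s, e = Sum.inr (y, s) → nbr y (o y) = q := by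
        intro y s hy
        rcases he with h | ⟨x', s', h, h', _⟩
        · rw [h] at hy; exact absurd hy (by simp)
        · rw [h] at hy
          simp only [Sum.inr.injEq, Prod.mk.injEq] at hy
          rw [← hy.1]; exact h'
      rcases h with h | h <;> rcases h3 with h3 | h3
      · rw [h] at h3
        simp only [Sum.inr.injEq, Prod.mk.injEq, true_and] at h3
        exact h3.symm
      · exact absurd ((hdx _ _ h).symm.trans (hex _ _ h3)) hb.ne
      · exact absurd ((hdx _ _ h3).symm.trans (hex _ _ h)) hb.ne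
      · rw [h] at h3
        simp only [Sum.inr.injEq, Prod.mk.injEq, true_and] at h3
        exact h3.symm
  have hdel : ∀ x t, μ x = some t → m3 t ≠ o x ∧
      ((d = Sum.inr (x, t) ∧ nbr x (o x) = p) ∨ (e = Sum.inr (x, t) ∧ nbr x (o x) = q)) := by
    intro x t h
    rw [hμ] at h
    rcases h with h | h
    · rcases hd with h' | ⟨x', s', h', h'', h'''⟩
      · rw [h'] at h; exact absurd h (by simp)
      · rw [h'] at h
        have h1 := h
        simp only [Sum.inr.injEq, Prod.mk.injEq] at h
        obtain ⟨rfl, rfl⟩ := h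
        exact ⟨h''', Or.inl ⟨h', h''⟩⟩
    · rcases he with h' | ⟨x', s', h', h'', h'''⟩
      · rw [h'] at h; exact absurd h (by simp)
      · rw [h'] at h
        have h1 := h
        simp only [Sum.inr.injEq, Prod.mk.injEq] at h
        obtain ⟨rfl, rfl⟩ := h
        exact ⟨h''', Or.inr ⟨h', h''⟩⟩
  refine ⟨FF nbr o μ, FF_HF o p q hb hinj μ _ ?_ ?_ ?_ ?_ ?_⟩
  · intro x t h
    have := hdel x t h
    refine ⟨this.1, ?_⟩
    rcases this.2 with h | h
    · exact Or.inl h.2
    · exact Or.inr h.2
  · intro x t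
    rw [ne_eq (μ x), hμ]
    constructor
    · rintro ⟨h1, h2⟩ (h | h)
      · exact h1 h.symm
      · exact h2 h.symm
    · intro h
      push Not at h
      exact ⟨fun h' => h.1 h'.symm, fun h' => h.2 h'.symm⟩
  · intro s hs
    constructor
    · rintro ⟨h1, h2⟩
      rcases hs with rfl | rfl
      · rcases hd with h | ⟨x', s', h', h'', h'''⟩
        · exact absurd h.symm h1
        · exact ⟨x', s', (hμ _ _).2 (Or.inl h'), h''⟩
      · rcases he with h | ⟨x', s', h', h'', h'''⟩
        · exact absurd h.symm h2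
        · exact ⟨x', s', (hμ _ _).2 (Or.inr h'), h''⟩
    · rintro ⟨x, t, h1, h2⟩
      have h3 := hdel x t h1
      rcases h3.2 with ⟨h4, h5⟩ | ⟨h4, h5⟩
      · -- s = p, revived by d
        have hsp : s = p := by rw [← h2, h5]
        refine ⟨by rw [h4]; simp, ?_⟩
        rcases he with h | ⟨x', s', h', h'', h'''⟩
        · rw [h, hsp]
          intro h6
          exact hb.ne (Sum.inl.inj h6)
        · rw [h']; simp
      · have hsq : s = q := by rw [← h2, h5]
        refine ⟨?_, by rw [h4]; simp⟩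
        rcases hd with h | ⟨x', s', h', h'', h'''⟩
        · rw [h, hsq]
          intro h6
          exact hb.ne (Sum.inl.inj h6).symm
        · rw [h']; simp
  · intro x x' h1 h2 h3
    rcases hx : μ x with _ | t
    · exact absurd hx h1
    rcases hx' : μ x' with _ | t'
    · exact absurd hx' h2
    have h4 := (hdel x t hx).2
    have h5 := (hdel x' t' hx').2
    rcases h4 with ⟨h4, h4'⟩ | ⟨h4, h4'⟩ <;> rcases h5 with ⟨h5, h5'⟩ | ⟨h5, h5'⟩
    · rw [h4] at h5
      simp only [Sum.inr.injEq, Prod.mk.injEq] at h5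
      exact h5.1
    · exact absurd (h4'.symm.trans (h3.trans h5')) hb.ne
    · exact absurd (h5'.symm.trans (h3.symm.trans h4')) hb.ne
    · rw [h4] at h5
      simp only [Sum.inr.injEq, Prod.mk.injEq] at h5
      exact h5.1
  · intro s h1 h2
    constructor
    · rcases hd with h | ⟨x', s', h', h'', h'''⟩
      · rw [h]; intro h6; exact h1 (Sum.inl.inj h6)
      · rw [h']; simp
    · rcases he with h | ⟨x', s', h', h'', h'''⟩
      · rw [h]; intro h6; exact h2 (Sum.inl.inj h6)
      · rw [h']; simp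

end

end Pool.Agent.Gru
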