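import Pool.Agent.Gru.HF

/-!
The graph `Gr`: an independent set `S`, and for each `x : X` a 6-cycle whose vertex `t` is joined
to `nbr x (t mod 3)` (this is the Petersen graph minus a vertex, glued at the three neighbours).
-/

set_option autoImplicit false

namespace Pool.Agent.Gru

open SimpleGraph

/-- `t mod 3`. -/
def m3 (t : Fin 6) : Fin 3 := ⟨t.val % 3, Nat.mod_lt _ (by norm_num)⟩

/-- The glued graph. -/
def Gr {S X : Type*} (nbr : X → Fin 3 → S) : SimpleGraph (S ⊕ X × Fin 6) where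
  Adj u v := match u, v with
    | Sum.inl _, Sum.inl _ => False
    | Sum.inl s, Sum.inr (x, t) => s = nbr x (m3 t)
    | Sum.inr (x, t), Sum.inl s => s = nbr x (m3 t)
    | Sum.inr (x, t), Sum.inr (y, u) => x = y ∧ (u = t + 1 ∨ t = u + 1)
  symm := ⟨by
    rintro (s | ⟨x, t⟩) (s' | ⟨y, u⟩) h
    · exact h
    · exact h
    · exact h
    · exact ⟨h.1.symm, h.2.symm⟩⟩
  loopless := ⟨by
    rintro (s | ⟨x, t⟩) h
    · exact h
    · rcases h with ⟨_, h | h⟩ <;> revert h <;> revert t <;> decide⟩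

section
variable {S X : Type*} {nbr : X → Fin 3 → S}

theorem gr_inl_inl (s s' : S) : ¬ (Gr nbr).Adj (Sum.inl s) (Sum.inl s') := fun h => h

theorem gr_inr_inl (x : X) (t : Fin 6) (s : S) :
    (Gr nbr).Adj (Sum.inr (x, t)) (Sum.inl s) ↔ s = nbr x (m3 t) := Iff.rfl

theorem gr_inl_inr (x : X) (t : Fin 6) (s : S) :
    (Gr nbr).Adj (Sum.inl s) (Sum.inr (x, t)) ↔ s = nbr x (m3 t) := Iff.rfl

theorem gr_inr_inr (x y : X) (t u : Fin 6) :
    (Gr nbr).Adj (Sum.inr (x, t)) (Sum.inr (y, u)) ↔ x = y ∧ (u = t + 1 ∨ t = u + 1) := Iff.rfl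

end

/-- The finite check behind the counting bound. -/
theorem finite_check : ∀ e0 e1 e2 e3 e4 e5 : Bool,
    let e : Fin 6 → Bool := ![e0, e1, e2, e3, e4, e5]
    (∀ t, e t || e (t + 5)) →
    (3 ≤ (Finset.univ.filter (fun t : Fin 6 => (!(e t && e (t + 5))) = true)).card) →
    ∃ w0 w1 w2 w3 w4 w5 : Bool, 
      let a : Fin 6 → Bool := fun t => !(e t && e (t + 5))
      let w : Fin 6 → Bool := ![w0, w1, w2, w3, w4, w5]
      (∃ t, w t = true) ∧ (∀ t, e t = true → w t = w (t + 1)) ∧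
      (∀ t, a t = true → w t = (a t && a (t + 3))) := by
  decide

end Pool.Agent.Gru
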