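import Pool.Agent.Gru.Ins

/-!
Local structure of graphs all of whose two-vertex-deleted subgraphs are Hamiltonian.
-/

set_option autoImplicit false

namespace Pool.Agent.Gru

open SimpleGraph

variable {n : ℕ}

/-- `G` is Hamiltonian. -/
def Ham (G : SimpleGraph (Fin n)) : Prop :=
  ∃ a : Fin n, ∃ p : G.Walk a a, p.IsHamiltonianCycle

/-- `G - v` is Hamiltonian. -/
def HamDel (G : SimpleGraph (Fin n)) (v : Fin n) : Prop :=
  ∃ a : ↥(({v}ᶜ : Set (Fin n))), ∃ p : (G.induce ({v}ᶜ : Set (Fin n))).Walk a a,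
    p.IsHamiltonianCycle

/-- `G - v - w` is Hamiltonian. -/
def HamDelTwo (G : SimpleGraph (Fin n)) (v w : Fin n) : Prop :=
  ∃ a : ↥(({v, w}ᶜ : Set (Fin n))), ∃ p : (G.induce ({v, w}ᶜ : Set (Fin n))).Walk a a,
    p.IsHamiltonianCycle

theorem HF_of_del {G : SimpleGraph (Fin n)} {v w : Fin n} (h : HamDelTwo G v w) :
    ∃ F, HF G (fun u => u ≠ v ∧ u ≠ w) F := by
  obtain ⟨a, p, hp⟩ := h
  refine HF_of_ham _ G (fun x : ↥(({v, w}ᶜ : Set (Fin n))) => x.1)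
    (fun x y hxy => Subtype.ext hxy) (fun a b h => h) _ ?_ a p hp
  intro u
  constructor
  · intro hu
    exact ⟨⟨u, by simpa [not_or] using hu⟩, rfl⟩
  · rintro ⟨⟨x, hx⟩, rfl⟩
    simpa [not_or] using hx

theorem ham_of_HF_all {G : SimpleGraph (Fin n)} {al : Fin n → Prop} {F : Fin n → Fin n → Prop}
    (h : HF G al F) (hal : ∀ u, al u) (v : Fin n) : Ham G := by
  haveI : Nonempty (Fin n) := ⟨v⟩
  exact ham_of_HF G G id Function.injective_id (fun a b h => h) al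
    (fun v => ⟨fun _ => ⟨v, rfl⟩, fun _ => hal v⟩) F h

theorem del_of_HF {G : SimpleGraph (Fin n)} {al : Fin n → Prop} {F : Fin n → Fin n → Prop}
    (b : Fin n) (h : HF G al F) (hal : ∀ u, al u ↔ u ≠ b) (v : Fin n) (hv : v ≠ b) :
    HamDel G b := by
  haveI : Nonempty ↥(({b}ᶜ : Set (Fin n))) := ⟨⟨v, hv⟩⟩
  refine ham_of_HF _ G (fun x : ↥(({b}ᶜ : Set (Fin n))) => x.1)
    (fun x y hxy => Subtype.ext hxy) (fun a b h => h) al ?_ F h
  intro u
  rw [hal u]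
  constructor
  · intro hu
    exact ⟨⟨u, hu⟩, rfl⟩
  · rintro ⟨⟨x, hx⟩, rfl⟩
    exact hx

/-- The local statement for a neighbour `a` of `v` and `b` adjacent to `v`, or to `a` if `G` is
not Hamiltonian. -/
theorem local_two {G : SimpleGraph (Fin n)} (h1 : ∀ v, ¬ HamDel G v)
    (h2 : ∀ v w, v ≠ w → HamDelTwo G v w) {v a b : Fin n} (hva : G.Adj v a) (hbv : b ≠ v)
    (hba : b ≠ a) (hb : G.Adj v b ∨ (G.Adj a b ∧ ¬ Ham G)) :
    2 ≤ {c | G.Adj v c ∧ c ≠ a ∧ c ≠ b ∧ ¬ G.Adj a c ∧ ¬ G.Adj b c}.ncard := by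
  classical
  obtain ⟨F, hF⟩ := HF_of_del (h2 a b hba.symm)
  have hv : v ≠ a ∧ v ≠ b := ⟨hva.ne, hbv.symm⟩
  rw [← hF.deg v hv]
  refine Set.ncard_le_ncard ?_ (Set.toFinite _)
  intro c hc
  have hc' : F v c := hc
  have hca := hF.alive _ _ (hF.symm _ _ hc')
  have hac : ¬ G.Adj a c := by
    intro h
    refine h1 b (del_of_HF b (ins_one hF hc' (a := a) (fun h => h.1 rfl) hva h.symm)
      (fun u => ?_) v hv.2)
    by_cases hu : u = a
    · subst hu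
      exact ⟨fun _ => hba.symm, fun _ => Or.inr rfl⟩
    · exact ⟨fun h => (h.resolve_right hu).2, fun h => Or.inl ⟨hu, h⟩⟩
  refine ⟨hF.le _ _ hc', hca.1, hca.2, hac, ?_⟩
  intro h
  rcases hb with hb | ⟨hb, h0⟩
  · refine h1 a (del_of_HF a (ins_one hF hc' (a := b) (fun h => h.2 rfl) hb h.symm)
      (fun u => ?_) v hv.1)
    by_cases hu : u = b
    · subst hu
      exact ⟨fun _ => hba, fun _ => Or.inr rfl⟩
    · exact ⟨fun h => (h.resolve_right hu).1, fun h => Or.inl ⟨h, hu⟩⟩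
  · refine h0 (ham_of_HF_all (ins_two hF hc' (a := a) (b := b) (fun h => h.1 rfl)
      (fun h => h.2 rfl) hva hb h.symm) (fun u => ?_) v)
    by_cases hu : u = a
    · exact Or.inl (Or.inr hu)
    · by_cases hu' : u = b
      · exact Or.inr hu'
      · exact Or.inl (Or.inl ⟨hu, hu'⟩)

theorem exists_two_adj {G : SimpleGraph (Fin n)} (hn : 5 ≤ n)
    (h2 : ∀ v w, v ≠ w → HamDelTwo G v w) (v : Fin n) :
    ∃ a b, a ≠ b ∧ G.Adj v a ∧ G.Adj v b := by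
  classical
  obtain ⟨w, hw, hwv⟩ : ∃ w : Fin n, w ∉ ({v} : Finset (Fin n)) ∧ w ≠ v := by
    obtain ⟨w, -, hw⟩ := Finset.exists_mem_notMem_of_card_lt_card
      (s := {v}) (t := (Finset.univ : Finset (Fin n))) (by simp; omega)
    exact ⟨w, hw, by simpa using hw⟩
  obtain ⟨w', hw'⟩ : ∃ w' : Fin n, w' ≠ v ∧ w' ≠ w := by
    obtain ⟨w', -, hw'⟩ := Finset.exists_mem_notMem_of_card_lt_card
      (s := {v, w}) (t := (Finset.univ : Finset (Fin n)))
      (lt_of_le_of_lt Finset.card_le_two (by simp; omega))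
    exact ⟨w', by simpa [not_or] using hw'⟩
  obtain ⟨F, hF⟩ := HF_of_del (h2 w w' hw'.2.symm)
  obtain ⟨a, b, hab, hs⟩ := Set.ncard_eq_two.1 (hF.deg v ⟨hwv.symm, hw'.1.symm⟩)
  have ha : a ∈ {u | F v u} := by rw [hs]; exact Or.inl rfl
  have hb : b ∈ {u | F v u} := by rw [hs]; exact Or.inr rfl
  exact ⟨a, b, hab, hF.le _ _ ha, hF.le _ _ hb⟩

theorem pick {P : Fin n → Prop} (h : 2 ≤ {c | P c}.ncard) : ∃ c, P c := by
  have : {c | P c}.Nonempty := by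
    apply Set.nonempty_of_ncard_ne_zero
    omega
  obtain ⟨c, hc⟩ := this
  exact ⟨c, hc⟩

/-- Every vertex is the centre of an induced claw. -/
theorem claw {G : SimpleGraph (Fin n)} (hn : 5 ≤ n) (h1 : ∀ v, ¬ HamDel G v)
    (h2 : ∀ v w, v ≠ w → HamDelTwo G v w) (v : Fin n) :
    ∃ a b c, G.Adj v a ∧ G.Adj v b ∧ G.Adj v c ∧ a ≠ b ∧ a ≠ c ∧ b ≠ c ∧
      ¬ G.Adj a b ∧ ¬ G.Adj a c ∧ ¬ G.Adj b c := by
  obtain ⟨a, b, hab, ha, hb⟩ := exists_two_adj hn h2 v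
  obtain ⟨c, hc1, hc2, hc3, hc4, hc5⟩ :=
    pick (local_two h1 h2 ha hb.ne.symm hab.symm (Or.inl hb))
  obtain ⟨d, hd1, hd2, hd3, hd4, hd5⟩ :=
    pick (local_two h1 h2 ha hc1.ne.symm hc2 (Or.inl hc1))
  exact ⟨a, c, d, ha, hc1, hd1, hc2.symm, hd2.symm, hd3.symm, hc4, hd4, hd5⟩

/-- Common neighbours of adjacent vertices. -/
theorem codeg {G : SimpleGraph (Fin n)} (hn : 5 ≤ n) (h1 : ∀ v, ¬ HamDel G v)
    (h2 : ∀ v w, v ≠ w → HamDelTwo G v w) {v a : Fin n} (ha : G.Adj v a) :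
    {c | G.Adj v c ∧ G.Adj a c}.ncard + 4 ≤ {c | G.Adj v c}.ncard := by
  classical
  obtain ⟨b, hba, hb⟩ : ∃ b, b ≠ a ∧ G.Adj v b := by
    obtain ⟨x, y, hxy, hx, hy⟩ := exists_two_adj hn h2 v
    by_cases h : x = a
    · exact ⟨y, fun h' => hxy (h.trans h'.symm), hy⟩
    · exact ⟨x, h, hx⟩
  obtain ⟨c, hc1, hc2, hc3, hc4, hc5⟩ :=
    pick (local_two h1 h2 ha hb.ne.symm hba (Or.inl hb))
  have h3 := local_two h1 h2 ha hc1.ne.symm hc2 (Or.inl hc1)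
  set D := {d | G.Adj v d ∧ d ≠ a ∧ d ≠ c ∧ ¬ G.Adj a d ∧ ¬ G.Adj c d} with hD
  set C := {c | G.Adj v c ∧ G.Adj a c} with hC
  have hsub : C ∪ insert a (insert c D) ⊆ {c | G.Adj v c} := by
    rintro x (hx | rfl | rfl | hx)
    · exact hx.1
    · exact ha
    · exact hc1
    · exact hx.1
  have hdisj : Disjoint C (insert a (insert c D)) := by
    rw [Set.disjoint_left]
    rintro x ⟨hx1, hx2⟩ (rfl | rfl | hx)
    · exact hx2.ne rfl
    · exact hc4 hx2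
    · exact hx.2.2.2.1 hx2
  have h4 := Set.ncard_le_ncard hsub (Set.toFinite _)
  rw [Set.ncard_union_eq hdisj (Set.toFinite _) (Set.toFinite _),
    Set.ncard_insert_of_notMem (by
      rintro (h | h)
      · exact hc2 h.symm
      · exact h.2.1 rfl) (Set.toFinite _),
    Set.ncard_insert_of_notMem (by
      intro h
      exact h.2.2.1 rfl) (Set.toFinite _)] at h4
  omega

/-- Neighbourhoods are not nested. -/
theorem not_nested {G : SimpleGraph (Fin n)} (hn : 5 ≤ n) (h0 : ¬ Ham G)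
    (h1 : ∀ v, ¬ HamDel G v) (h2 : ∀ v w, v ≠ w → HamDelTwo G v w) {v b : Fin n} (hvb : v ≠ b) :
    2 ≤ {c | G.Adj v c ∧ c ≠ b ∧ ¬ G.Adj b c}.ncard := by
  classical
  obtain ⟨x, y, hxy, hx, hy⟩ := exists_two_adj hn h2 v
  by_cases hcase : ∃ a, a ≠ b ∧ G.Adj v a ∧ (G.Adj v b ∨ G.Adj a b)
  · obtain ⟨a, hab, hva, h3⟩ := hcase
    have h4 := local_two h1 h2 hva hvb.symm hab.symm (b := b)
      (h3.imp id fun h => ⟨h, h0⟩)
    refine h4.trans (Set.ncard_le_ncard ?_ (Set.toFinite _))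
    rintro c ⟨c1, c2, c3, c4, c5⟩
    exact ⟨c1, c3, c5⟩
  · push Not at hcase
    have hvb' : ¬ G.Adj v b := by
      intro h
      by_cases hxb : x = b
      · exact (hcase y (fun h' => hxy (hxb.trans h'.symm)) hy).1 h
      · exact (hcase x hxb hx).1 h
    have hxb : x ≠ b := by rintro rfl; exact hvb' hx
    have hyb : y ≠ b := by rintro rfl; exact hvb' hy
    rw [← Set.ncard_pair hxy]
    refine Set.ncard_le_ncard ?_ (Set.toFinite _)
    rintro c (rfl | rfl)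
    · exact ⟨hx, hxb, fun h => (hcase _ hxb hx).2 h.symm⟩
    · exact ⟨hy, hyb, fun h => (hcase _ hyb hy).2 h.symm⟩

end Pool.Agent.Gru
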