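import Pool.Agent.Gru.Local

set_option autoImplicit false

namespace Pool.Agent.Gru

open SimpleGraph Finset

theorem three {V : Type*} (N : Set V) (p q r : V) (hN : N.ncard = 2)
    (hsub : ∀ v ∈ N, v = p ∨ v = q ∨ v = r) (hpq : p ≠ q) (hpr : p ≠ r) (hqr : q ≠ r) :
    (p ∈ N ∨ q ∈ N) ∧ (r ∈ N ↔ ¬ (p ∈ N ∧ q ∈ N)) := by
  obtain ⟨x, y, hxy, rfl⟩ := Set.ncard_eq_two.1 hN
  have hx := hsub x (by simp)
  have hy := hsub y (by simp)
  simp only [Set.mem_insert_iff, Set.mem_singleton_iff]
  rcases hx with rfl | rfl | rfl <;> rcases hy with rfl | rfl | rfl <;>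
    simp_all [eq_comm]

theorem two_elems {V : Type*} (N : Set V) (p q r : V) (hN : N.ncard = 2)
    (hp : p ∈ N) (hq : q ∈ N) (hr : r ∈ N) (hpq : p ≠ q) : r = p ∨ r = q := by
  obtain ⟨x, y, hxy, rfl⟩ := Set.ncard_eq_two.1 hN
  simp only [Set.mem_insert_iff, Set.mem_singleton_iff] at hp hq hr
  rcases hp with rfl | rfl <;> rcases hq with rfl | rfl <;> rcases hr with rfl | rfl <;>
    simp_all [eq_comm]

theorem finite_check' (e : Fin 6 → Bool) (h : ∀ t, e t || e (t + 5))
    (h3 : 3 ≤ (Finset.univ.filter (fun t : Fin 6 => (!(e t && e (t + 5))) = true)).card) :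
    ∃ w : Fin 6 → Bool, (∃ t, w t = true) ∧ (∀ t, e t = true → w t = w (t + 1)) ∧
      (∀ t, (!(e t && e (t + 5))) = true →
        w t = ((!(e t && e (t + 5))) && (!(e (t + 3) && e (t + 3 + 5))))) := by
  have he : e = ![e 0, e 1, e 2, e 3, e 4, e 5] := by
    ext t
    fin_cases t <;> rfl
  have := finite_check (e 0) (e 1) (e 2) (e 3) (e 4) (e 5)
  rw [← he] at this
  obtain ⟨w0, w1, w2, w3, w4, w5, h1, h2, h3⟩ := this h h3
  exact ⟨![w0, w1, w2, w3, w4, w5], h1, h2, h3⟩

section
variable {S X : Type*} {nbr : X → Fin 3 → S}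

theorem edge_back {al : S ⊕ X × Fin 6 → Prop} {F : S ⊕ X × Fin 6 → S ⊕ X × Fin 6 → Prop}
    (h : HF (Gr nbr) al F) (x : X) (t : Fin 6) :
    F (Sum.inr (x, t)) (Sum.inr (x, t + 5)) ↔ F (Sum.inr (x, t + 5)) (Sum.inr (x, t + 5 + 1)) := by
  have : t + 5 + 1 = t := by revert t; decide
  rw [this]
  exact ⟨fun h' => h.symm _ _ h', fun h' => h.symm _ _ h'⟩

theorem local_three {al : S ⊕ X × Fin 6 → Prop} {F : S ⊕ X × Fin 6 → S ⊕ X × Fin 6 → Prop}
    (h : HF (Gr nbr) al F) (x : X) (t : Fin 6) (hal : al (Sum.inr (x, t))) :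
    (F (Sum.inr (x, t)) (Sum.inr (x, t + 1)) ∨
      F (Sum.inr (x, t + 5)) (Sum.inr (x, t + 5 + 1))) ∧
    (F (Sum.inr (x, t)) (Sum.inl (nbr x (m3 t))) ↔ 
      ¬ (F (Sum.inr (x, t)) (Sum.inr (x, t + 1)) ∧
        F (Sum.inr (x, t + 5)) (Sum.inr (x, t + 5 + 1)))) := by
  rw [← edge_back h x t]
  apply three {v | F (Sum.inr (x, t)) v} _ _ _ (h.deg _ hal)
  · intro v hv
    have hadj := h.le _ _ hv
    rcases v with s | ⟨y, u⟩
    · right; right
      rw [gr_inr_inl] at hadj
      rw [hadj]
    · rw [gr_inr_inr] at hadj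
      obtain ⟨rfl, h1 | h1⟩ := hadj
      · left; rw [h1]
      · right; left
        have h2 : ∀ u : Fin 6, u = u + 1 + 5 := by decide
        have : u = t + 5 := by rw [h1]; exact h2 u
        rw [this]
  · intro heq
    simp only [Sum.inr.injEq, Prod.mk.injEq, true_and] at heq
    have h2 : ∀ t : Fin 6, t + 1 ≠ t + 5 := by decide
    exact h2 t heq
  · simp
  · simp

/-- Local bound: a full 6-cycle sends at most two cycle edges to `S`. -/
theorem local_bound {al : S ⊕ X × Fin 6 → Prop} {F : S ⊕ X × Fin 6 → S ⊕ X × Fin 6 → Prop}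
    (h : HF (Gr nbr) al F) (hinj : ∀ x, Function.Injective (nbr x)) (x : X)
    (hal : ∀ t, al (Sum.inr (x, t))) (y : X) (hy : y ≠ x) (t' : Fin 6)
    (ht' : al (Sum.inr (y, t'))) (A : Finset (Fin 6))
    (hA : ∀ t ∈ A, F (Sum.inr (x, t)) (Sum.inl (nbr x (m3 t)))) : A.card ≤ 2 := by
  classical
  by_contra hcon
  push Not at hcon
  let e : Fin 6 → Bool := fun t => decide (F (Sum.inr (x, t)) (Sum.inr (x, t + 1)))
  have ha : ∀ t, F (Sum.inr (x, t)) (Sum.inl (nbr x (m3 t))) ↔ (!(e t && e (t + 5))) = true := by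
    intro t
    rw [(local_three h x t (hal t)).2]
    simp only [e, Bool.not_eq_true', Bool.and_eq_false_iff, decide_eq_false_iff_not]
    tauto
  have h1 : ∀ t, e t || e (t + 5) := by
    intro t
    have := (local_three h x t (hal t)).1
    simpa [e] using this
  have h3 : 3 ≤ (Finset.univ.filter (fun t : Fin 6 => (!(e t && e (t + 5))) = true)).card := by
    have h4 : A ⊆ Finset.univ.filter (fun t => (!(e t && e (t + 5))) = true) := by
      intro t ht
      rw [Finset.mem_filter]
      exact ⟨Finset.mem_univ _, (ha t).1 (hA t ht)⟩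
    have h5 := Finset.card_le_card h4
    omega
  obtain ⟨w, ⟨t0, ht0⟩, hw1, hw2⟩ := finite_check' e h1 h3
  let W : S ⊕ X × Fin 6 → Prop := fun v => match v with
    | Sum.inl s => ∃ j : Fin 6, nbr x (m3 j) = s ∧ F (Sum.inr (x, j)) (Sum.inl (nbr x (m3 j))) ∧
        F (Sum.inr (x, j + 3)) (Sum.inl (nbr x (m3 (j + 3))))
    | Sum.inr (y, t) => y = x ∧ w t = true
  have hm3 : ∀ j t : Fin 6, m3 j = m3 t → j = t ∨ j = t + 3 := by decide
  have hm3' : ∀ j : Fin 6, m3 (j + 3) = m3 j := by decide
  have hj33 : ∀ j : Fin 6, j + 3 + 3 = j := by decide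
  -- one direction pair: S - L edges
  have hSL : ∀ (s : S) (z : X) (t : Fin 6), F (Sum.inr (z, t)) (Sum.inl s) →
      (W (Sum.inr (z, t)) ↔ W (Sum.inl s)) := by
    intro s z t hF
    have hs := h.le _ _ hF
    rw [gr_inr_inl] at hs
    by_cases hz : z = x
    · subst hz
      subst hs
      have hat := (ha t).1 hF
      have hwt := hw2 t hat
      constructor
      · rintro ⟨_, hwt'⟩
        rw [hwt'] at hwt
        refine ⟨t, rfl, hF, (ha _).2 ?_⟩
        have := hwt.symm
        rw [Bool.and_eq_true] at this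
        exact this.2
      · rintro ⟨j, hj, hj1, hj2⟩
        refine ⟨rfl, ?_⟩
        rw [hwt, Bool.and_eq_true]
        refine ⟨hat, ?_⟩
        have hjt := hinj _ hj
        rcases hm3 j t hjt with rfl | rfl
        · exact (ha _).1 hj2
        · exact (ha _).1 hj1
    · constructor
      · rintro ⟨h1, _⟩
        exact absurd h1 hz
      · rintro ⟨j, hj, hj1, hj2⟩
        exfalso
        rw [hj] at hj1
        have hj2' : F (Sum.inr (x, j + 3)) (Sum.inl s) := by
          rw [hm3', hj] at hj2
          exact hj2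
        have hals : al (Sum.inl s) := h.alive _ _ (h.symm _ _ hF)
        have := two_elems {v | F (Sum.inl s) v} (Sum.inr (x, j)) (Sum.inr (x, j + 3))
          (Sum.inr (z, t)) (h.deg _ hals) (h.symm _ _ hj1) (h.symm _ _ hj2') (h.symm _ _ hF)
          (by
            intro heq
            simp only [Sum.inr.injEq, Prod.mk.injEq, true_and] at heq
            have h2 : ∀ j : Fin 6, j ≠ j + 3 := by decide
            exact h2 j heq)
        simp only [Sum.inr.injEq, Prod.mk.injEq] at this
        rcases this with h1 | h1 <;> exact hz h1.1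
  have hLL : ∀ (z z' : X) (t u : Fin 6), F (Sum.inr (z, t)) (Sum.inr (z', u)) → u = t + 1 →
      z = z' → (W (Sum.inr (z, t)) ↔ W (Sum.inr (z', u))) := by
    intro z z' t u hF hu hz
    subst hz
    subst hu
    show (z = x ∧ w t = true) ↔ (z = x ∧ w (t + 1) = true)
    by_cases hzx : z = x
    · subst hzx
      have : e t = true := by simpa [e] using hF
      rw [hw1 t this]
    · simp [hzx]
  have hclosed : ∀ u v, F u v → (W u ↔ W v) := by
    rintro (s | ⟨z, t⟩) (s' | ⟨z', u⟩) hF
    · exact absurd (h.le _ _ hF) (gr_inl_inl _ _)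
    · exact (hSL s z' u (h.symm _ _ hF)).symm
    · exact hSL s' z t hF
    · have hadj := h.le _ _ hF
      rw [gr_inr_inr] at hadj
      rcases hadj with ⟨hz, h1 | h1⟩
      · exact hLL z z' t u hF h1 hz
      · exact (hLL z' z u t (h.symm _ _ hF) h1 hz.symm).symm
  have := (h.conn W hclosed (Sum.inr (x, t0)) (Sum.inr (y, t')) (hal t0) ht').1 ⟨rfl, ht0⟩
  exact hy this.1

variable [Fintype S] [Fintype X]

/-- The counting theorem: `Gr nbr` minus at most one vertex is not Hamiltonian. -/
theorem nonHam {al : S ⊕ X × Fin 6 → Prop} {F : S ⊕ X × Fin 6 → S ⊕ X × Fin 6 → Prop}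
    (hinj : ∀ x, Function.Injective (nbr x))
    (hcard : Fintype.card S = Fintype.card X + 2) (hX : 2 ≤ Fintype.card X)
    (hdead : ∀ u v, ¬ al u → ¬ al v → u = v)
    (h : HF (Gr nbr) al F) : False := by
  classical
  let A : Finset (X × Fin 6) := Finset.univ.filter
    (fun i => F (Sum.inr i) (Sum.inl (nbr i.1 (m3 i.2))))
  -- lower bound
  have hlow : 2 * (Finset.univ.filter (fun s : S => al (Sum.inl s))).card ≤ A.card := by
    have h1 : A.card = ∑ s : S, (A.filter (fun i => nbr i.1 (m3 i.2) = s)).card :=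
      Finset.card_eq_sum_card_fiberwise (fun i _ => Finset.mem_univ _)
    have h2 : ∑ s ∈ Finset.univ.filter (fun s : S => al (Sum.inl s)),
        (A.filter (fun i => nbr i.1 (m3 i.2) = s)).card ≤ A.card := by
      rw [h1]
      exact Finset.sum_le_sum_of_subset (Finset.filter_subset _ _)
    have h3 : ∀ s ∈ Finset.univ.filter (fun s : S => al (Sum.inl s)),
        2 = (A.filter (fun i => nbr i.1 (m3 i.2) = s)).card := by
      intro s hs
      rw [Finset.mem_filter] at hs
      rw [← h.deg _ hs.2]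
      have h4 : {v | F (Sum.inl s) v} = 
          (fun i : X × Fin 6 => (Sum.inr i : S ⊕ X × Fin 6)) '' 
            ((A.filter (fun i => nbr i.1 (m3 i.2) = s) : Finset (X × Fin 6)) : Set (X × Fin 6)) := by
        ext v
        simp only [Set.mem_ofPred_eq, Set.mem_image, Finset.mem_coe, Finset.mem_filter, A,
          Finset.mem_univ, true_and]
        constructor
        · intro hv
          rcases v with s' | ⟨x, t⟩
          · exact absurd (h.le _ _ hv) (gr_inl_inl _ _)
          · have hs' := h.le _ _ hv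
            rw [gr_inl_inr] at hs'
            exact ⟨(x, t), ⟨by rw [← hs']; exact h.symm _ _ hv, hs'.symm⟩, rfl⟩
        · rintro ⟨i, ⟨hi1, hi2⟩, rfl⟩
          rw [hi2] at hi1
          exact h.symm _ _ hi1
      rw [h4, Set.ncard_image_of_injective _ Sum.inr_injective, Set.ncard_coe_finset]
    rw [← Finset.sum_congr rfl h3, Finset.sum_const, smul_eq_mul] at h2
    omega
  -- upper bound
  have hup1 : ∀ x : X, (∀ t, al (Sum.inr (x, t))) → (A.filter (fun i => i.1 = x)).card ≤ 2 := by
    intro x hx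
    obtain ⟨y, hy⟩ : ∃ y : X, y ≠ x := by
      have : 1 < Fintype.card X := by omega
      exact Fintype.exists_ne_of_one_lt_card this x
    obtain ⟨t', ht'⟩ : ∃ t' : Fin 6, al (Sum.inr (y, t')) := by
      by_contra hcon
      push Not at hcon
      have := hdead _ _ (hcon 0) (hcon 1)
      simp at this
    have h5 := local_bound h hinj x hx y hy t' ht'
      ((A.filter (fun i => i.1 = x)).image (fun i => i.2)) (by
        intro t ht
        rw [Finset.mem_image] at ht
        obtain ⟨⟨x', t''⟩, hi, rfl⟩ := ht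
        simp only [Finset.mem_filter, Finset.mem_univ, true_and, A] at hi
        obtain ⟨h1, rfl⟩ := hi
        exact h1)
    rwa [Finset.card_image_of_injOn] at h5
    rintro ⟨x1, t1⟩ h1 ⟨x2, t2⟩ h2 h12
    simp only [Finset.coe_filter, Set.mem_ofPred_eq] at h1 h2
    simp only [Prod.mk.injEq]
    exact ⟨h1.2.trans h2.2.symm, h12⟩
  have hup2 : ∀ x : X, ∀ t0, ¬ al (Sum.inr (x, t0)) → (A.filter (fun i => i.1 = x)).card ≤ 5 := by
    intro x t0 ht0
    have h6 : (A.filter (fun i => i.1 = x)) ⊆ (Finset.univ.erase t0).image (fun t => (x, t)) := by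
      rintro ⟨x', t⟩ hi
      simp only [Finset.mem_filter, Finset.mem_univ, true_and, A] at hi
      obtain ⟨h1, rfl⟩ := hi
      rw [Finset.mem_image]
      refine ⟨t, ?_, rfl⟩
      rw [Finset.mem_erase]
      refine ⟨?_, Finset.mem_univ _⟩
      rintro rfl
      exact ht0 (h.alive _ _ h1)
    have h7 := Finset.card_le_card h6
    have h8 : ((Finset.univ.erase t0).image (fun t => (x, t))).card ≤ 5 := by
      refine Finset.card_image_le.trans ?_
      rw [Finset.card_erase_of_mem (Finset.mem_univ _)]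
      simp
    omega
  have hsum : A.card = ∑ x : X, (A.filter (fun i => i.1 = x)).card :=
    Finset.card_eq_sum_card_fiberwise (fun i _ => Finset.mem_univ _)
  by_cases hL : ∃ i : X × Fin 6, ¬ al (Sum.inr i)
  · obtain ⟨⟨x0, t0⟩, h0⟩ := hL
    have hS : ∀ s : S, al (Sum.inl s) := by
      intro s
      by_contra hs
      have := hdead _ _ hs h0
      simp at this
    have h9 : (Finset.univ.filter (fun s : S => al (Sum.inl s))).card = Fintype.card X + 2 := by
      rw [Finset.filter_true_of_mem (fun s _ => hS s), Finset.card_univ, hcard]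
    have h10 : ∑ x : X, (A.filter (fun i => i.1 = x)).card ≤
        ∑ x : X, (2 + if x = x0 then 3 else 0) := by
      apply Finset.sum_le_sum
      intro x _
      by_cases hx : x = x0
      · subst hx
        simp only [if_true]
        exact hup2 _ t0 h0
      · rw [if_neg hx]
        apply hup1
        intro t
        by_contra ht
        have := hdead _ _ ht h0
        simp only [Sum.inr.injEq, Prod.mk.injEq] at this
        exact hx this.1
    rw [Finset.sum_add_distrib, Finset.sum_const, Finset.sum_ite_eq' Finset.univ x0,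
      if_pos (Finset.mem_univ _), Finset.card_univ, smul_eq_mul] at h10
    omega
  · push Not at hL
    have h10 : ∑ x : X, (A.filter (fun i => i.1 = x)).card ≤ ∑ x : X, 2 := by
      apply Finset.sum_le_sum
      intro x _
      exact hup1 x (fun t => hL _)
    rw [Finset.sum_const, Finset.card_univ, smul_eq_mul] at h10
    have h11 : Fintype.card X + 1 ≤ (Finset.univ.filter (fun s : S => al (Sum.inl s))).card := by
      have h12 : (Finset.univ.filter (fun s : S => ¬ al (Sum.inl s))).card ≤ 1 := by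
        rw [Finset.card_le_one]
        intro a ha b hb
        rw [Finset.mem_filter] at ha hb
        have := hdead _ _ ha.2 hb.2
        simpa using this
      have h13 := Finset.card_filter_add_card_filter_not (s := (Finset.univ : Finset S))
        (fun s : S => al (Sum.inl s))
      rw [Finset.card_univ, hcard] at h13
      omega
    omega

end

end Pool.Agent.Gru
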